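import Mathlib

namespace Pool.Agent.Lib.MP_f053ce_co

/-- `G` is critical `k`-chromatic: its chromatic number is `k`, and deleting any vertex gives
a graph with chromatic number `k - 1`. -/
def IsCritical {V : Type*} (k : ℕ) (G : SimpleGraph V) : Prop :=
  G.chromaticNumber = (k : ℕ∞) ∧
    ∀ x : V, (G.induce {v : V | v ≠ x}).chromaticNumber = ((k - 1 : ℕ) : ℕ∞)

/-- `f k n`: the maximum number of edges of a critical `k`-chromatic graph of order `n`. -/
noncomputable def f (k n : ℕ) : ℕ :=
  sSup {e : ℕ | ∃ G : SimpleGraph (Fin n), IsCritical k G ∧ G.edgeSet.ncard = e}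

end Pool.Agent.Lib.MP_f053ce_co
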