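import Mathlib
import Pool.Agent.Lib.MP_f053ce_co.Defs

namespace Pool.Agent.Lib.MP_f053ce_co

open Finset

theorem colorable_iff_fun {V : Type*} (G : SimpleGraph V) (k : ℕ) :
    G.Colorable k ↔ ∃ c : V → Fin k, ∀ u v, G.Adj u v → c u ≠ c v := by
  constructor
  · rintro ⟨C⟩
    exact ⟨C, fun u v huv => C.valid huv⟩
  · rintro ⟨c, hc⟩
    exact ⟨SimpleGraph.Coloring.mk c (fun {u v} huv => hc u v huv)⟩

theorem induce_colorable_iff {V : Type*} (G : SimpleGraph V) (k : ℕ) (x : V) :
    (G.induce {v : V | v ≠ x}).Colorable (k + 1) ↔
      ∃ c : V → Fin (k + 1), ∀ u v, u ≠ x → v ≠ x → G.Adj u v → c u ≠ c v := by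
  classical
  rw [colorable_iff_fun]
  constructor
  · rintro ⟨c, hc⟩
    refine ⟨fun v => if h : v ≠ x then c ⟨v, h⟩ else 0, ?_⟩
    intro u v hu hv huv
    simp only [dif_pos hu, dif_pos hv]
    exact hc ⟨u, hu⟩ ⟨v, hv⟩ (by simpa using huv)
  · rintro ⟨c, hc⟩
    refine ⟨fun v => c v.1, ?_⟩
    rintro ⟨u, hu⟩ ⟨v, hv⟩ huv
    exact hc u v hu hv (by simpa using huv)

theorem isCritical_iff {V : Type*} (G : SimpleGraph V) (r : ℕ) :
    IsCritical (r + 2) G ↔
      ((¬ ∃ c : V → Fin (r + 1), ∀ u v, G.Adj u v → c u ≠ c v) ∧
        ∀ x, ∃ c : V → Fin (r + 1), ∀ u v, u ≠ x → v ≠ x → G.Adj u v → c u ≠ c v) := by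
  classical
  have e1 : r + 2 - 1 = r + 1 := by omega
  constructor
  · rintro ⟨h1, h2⟩
    constructor
    · rw [← colorable_iff_fun]
      intro hcol
      have := hcol.chromaticNumber_le
      rw [h1] at this
      have h3 : r + 2 ≤ r + 1 := by exact_mod_cast this
      omega
    · intro x
      rw [← induce_colorable_iff]
      rw [← SimpleGraph.chromaticNumber_le_iff_colorable, h2 x, e1]
  · rintro ⟨h1, h2⟩
    rw [← colorable_iff_fun] at h1
    -- deleting a vertex gives an `r+1`-colourable graph, so `G` is `r+2`-colourable
    have hne : Nonempty V := by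
      by_contra hcon
      rw [not_nonempty_iff] at hcon
      exact h1 (SimpleGraph.Colorable.of_isEmpty _)
    have hext : ∀ (j : ℕ) (x : V), (∃ c : V → Fin (j + 1), ∀ u v, u ≠ x → v ≠ x → G.Adj u v →
        c u ≠ c v) → G.Colorable (j + 2) := by
      rintro j x ⟨c, hc⟩
      rw [colorable_iff_fun]
      refine ⟨fun v => if v = x then Fin.last (j + 1) else (c v).castSucc, ?_⟩
      intro u v huv
      by_cases hu : u = x
      · by_cases hv : v = x
        · exact absurd huv (by rw [hu, hv]; exact G.loopless.irrefl x)
        · simp only [hu, hv, if_true, if_false]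
          exact (Fin.castSucc_lt_last _).ne'
      · by_cases hv : v = x
        · simp only [hu, hv, if_true, if_false]
          exact (Fin.castSucc_lt_last _).ne
        · simp only [hu, hv, if_false]
          intro h
          exact hc u v hu hv huv (Fin.castSucc_injective _ h)
    have hlow : ∀ (j : ℕ) (x : V), (G.induce {v : V | v ≠ x}).Colorable j →
        G.Colorable (j + 1) := by
      intro j x hj
      rcases Nat.eq_zero_or_pos j with h0 | h0
      · subst h0
        rw [SimpleGraph.colorable_zero_iff] at hj
        rw [colorable_iff_fun]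
        refine ⟨fun _ => 0, ?_⟩
        intro u v huv
        exfalso
        by_cases hu : u = x
        · by_cases hv : v = x
          · exact absurd huv (by rw [hu, hv]; exact G.loopless.irrefl x)
          · exact hj.false ⟨v, hv⟩
        · exact hj.false ⟨u, hu⟩
      · obtain ⟨i, rfl⟩ : ∃ i, j = i + 1 := ⟨j - 1, by omega⟩
        exact hext i x ((induce_colorable_iff G i x).mp hj)
    constructor
    · apply le_antisymm
      · obtain ⟨x⟩ := hne
        exact (hext r x (h2 x)).chromaticNumber_le
      · rw [SimpleGraph.le_chromaticNumber_iff_colorable]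
        intro m hm
        by_contra hcon
        apply h1
        apply hm.mono
        have h3 : m < r + 2 := by
          by_contra h4
          apply hcon
          exact_mod_cast (not_lt.mp h4)
        omega
    · intro x
      rw [e1]
      apply le_antisymm
      · exact ((induce_colorable_iff G r x).mpr (h2 x)).chromaticNumber_le
      · rw [SimpleGraph.le_chromaticNumber_iff_colorable]
        intro m hm
        by_contra hcon
        apply h1
        apply (hlow m x hm).mono
        have h3 : m < r + 1 := by
          by_contra h4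
          apply hcon
          exact_mod_cast (not_lt.mp h4)
        omega

end Pool.Agent.Lib.MP_f053ce_co
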