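import Mathlib

namespace Pool.Agent.Lib.MP_f053ce_co

open Finset

variable {V α : Type*}

/-- A proper colouring of the vertices in `S` from the lists `L`. -/
def LCol (G : SimpleGraph V) (S : Finset V) (L : V → Finset α) : Prop :=
  ∃ c : V → α, (∀ v ∈ S, c v ∈ L v) ∧ ∀ u ∈ S, ∀ v ∈ S, G.Adj u v → c u ≠ c v

/-- In a vertex-critical non-list-colourable instance the lists have average size
almost two. -/
theorem list_crit [DecidableEq V] [DecidableEq α] [Nonempty α] (G : SimpleGraph V) :
    ∀ (n : ℕ) (S : Finset V) (L : V → Finset α), S.card = n → ¬ LCol G S L →
      (∀ v ∈ S, LCol G (S.erase v) L) → 2 * S.card ≤ (∑ v ∈ S, (L v).card) + 2 := by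
  classical
  intro n
  induction n with
  | zero =>
    intro S L hS _ _
    rw [hS]; omega
  | succ n ih =>
    intro S L hS hnot hcrit
    by_cases h0 : ∃ v ∈ S, (L v).card = 0
    · obtain ⟨v, hv, hv0⟩ := h0
      have hLv : L v = ∅ := Finset.card_eq_zero.mp hv0
      -- then `S = {v}`
      have hS1 : S = {v} := by
        ext w
        constructor
        · intro hw
          by_contra hne
          have hne' : w ≠ v := by simpa using hne
          obtain ⟨c, hc1, _⟩ := hcrit w hw
          have := hc1 v (Finset.mem_erase.mpr ⟨hne'.symm, hv⟩)
          rw [hLv] at this
          simp at this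
        · intro hw
          rw [Finset.mem_singleton.mp hw]; exact hv
      rw [hS1]; simp
    · push Not at h0
      by_cases h1 : ∃ v ∈ S, (L v).card = 1
      · obtain ⟨v, hv, hv1⟩ := h1
        obtain ⟨a, ha⟩ := Finset.card_eq_one.mp hv1
        set L' : V → Finset α := fun w => if G.Adj v w then (L w).erase a else L w with hL'
        have hcard : (S.erase v).card = n := by
          rw [Finset.card_erase_of_mem hv, hS]; rfl
        have hnot' : ¬ LCol G (S.erase v) L' := by
          rintro ⟨c, hc1, hc2⟩
          apply hnot
          refine ⟨fun w => if w = v then a else c w, ?_, ?_⟩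
          · intro w hw
            by_cases hwv : w = v
            · simp [hwv, ha]
            · have := hc1 w (Finset.mem_erase.mpr ⟨hwv, hw⟩)
              simp only [hwv, if_false]
              simp only [hL'] at this
              split_ifs at this
              · exact Finset.mem_of_mem_erase this
              · exact this
          · intro u hu w hw huw
            by_cases huv : u = v
            · by_cases hwv : w = v
              · exact absurd huw (by rw [huv, hwv]; exact G.loopless.irrefl v)
              · have := hc1 w (Finset.mem_erase.mpr ⟨hwv, hw⟩)
                have hadj : G.Adj v w := huv ▸ huw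
                simp only [hL', hadj, if_true] at this
                simp only [huv, hwv, if_true, if_false]
                exact (Finset.ne_of_mem_erase this).symm
            · by_cases hwv : w = v
              · have := hc1 u (Finset.mem_erase.mpr ⟨huv, hu⟩)
                have hadj : G.Adj v u := hwv ▸ huw.symm
                simp only [hL', hadj, if_true] at this
                simp only [huv, hwv, if_true, if_false]
                exact (Finset.ne_of_mem_erase this)
              · simp only [huv, hwv, if_false]
                exact hc2 u (Finset.mem_erase.mpr ⟨huv, hu⟩) w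
                  (Finset.mem_erase.mpr ⟨hwv, hw⟩) huw
        have hcrit' : ∀ w ∈ S.erase v, LCol G ((S.erase v).erase w) L' := by
          intro w hw
          obtain ⟨hwv, hwS⟩ := Finset.mem_erase.mp hw
          obtain ⟨c, hc1, hc2⟩ := hcrit w hwS
          have hvm : v ∈ S.erase w := Finset.mem_erase.mpr ⟨hwv.symm, hv⟩
          have hcv : c v = a := by
            have := hc1 v hvm
            rw [ha] at this
            exact Finset.mem_singleton.mp this
          refine ⟨c, ?_, ?_⟩
          · intro u hu
            obtain ⟨huw, hu'⟩ := Finset.mem_erase.mp hu
            obtain ⟨huv, huS⟩ := Finset.mem_erase.mp hu'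
            have hum : u ∈ S.erase w := Finset.mem_erase.mpr ⟨huw, huS⟩
            have h3 := hc1 u hum
            simp only [hL']
            split_ifs with hadj
            · refine Finset.mem_erase.mpr ⟨?_, h3⟩
              rw [← hcv]
              exact (hc2 v hvm u hum hadj).symm
            · exact h3
          · intro u hu x hx hux
            obtain ⟨huw, hu'⟩ := Finset.mem_erase.mp hu
            obtain ⟨huv, huS⟩ := Finset.mem_erase.mp hu'
            obtain ⟨hxw, hx'⟩ := Finset.mem_erase.mp hx
            obtain ⟨hxv, hxS⟩ := Finset.mem_erase.mp hx'
            exact hc2 u (Finset.mem_erase.mpr ⟨huw, huS⟩) x (Finset.mem_erase.mpr ⟨hxw, hxS⟩) hux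
        have hih := ih (S.erase v) L' hcard hnot' hcrit'
        -- some list really shrinks
        have hle : ∀ w ∈ S.erase v, (L' w).card ≤ (L w).card := by
          intro w _
          simp only [hL']
          split_ifs
          · exact Finset.card_le_card (Finset.erase_subset _ _)
          · exact le_rfl
        have hlt : ∑ w ∈ S.erase v, (L' w).card < ∑ w ∈ S.erase v, (L w).card := by
          apply Finset.sum_lt_sum hle
          by_contra hcon
          push Not at hcon
          have heq : ∀ w ∈ S.erase v, L' w = L w := by
            intro w hw
            have h2 := hcon w hw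
            have h3 : L' w ⊆ L w := by
              simp only [hL']
              split_ifs
              · exact Finset.erase_subset _ _
              · exact Finset.Subset.refl _
            exact Finset.eq_of_subset_of_card_le h3 h2
          apply hnot'
          obtain ⟨c, hc1, hc2⟩ := hcrit v hv
          refine ⟨c, ?_, hc2⟩
          intro w hw
          rw [heq w hw]
          exact hc1 w hw
        have hsum : ∑ w ∈ S, (L w).card = ∑ w ∈ S.erase v, (L w).card + 1 := by
          rw [← Finset.sum_erase_add S _ hv, hv1]
        rw [hsum]
        have : S.card = n + 1 := hS
        omega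
      · push Not at h1
        have : ∀ v ∈ S, 2 ≤ (L v).card := by
          intro v hv
          have := h0 v hv
          have := h1 v hv
          omega
        have h2 : ∑ v ∈ S, 2 ≤ ∑ v ∈ S, (L v).card := Finset.sum_le_sum this
        rw [Finset.sum_const, smul_eq_mul] at h2
        omega

end Pool.Agent.Lib.MP_f053ce_co
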