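import Mathlib
import Pool.Agent.Lib.MP_f053ce_co.ListCrit

namespace Pool.Agent.Lib.MP_f053ce_co

open Finset

variable {V : Type*}

/-- double counting of the pairs (clique vertex, neighbour) -/
theorem sum_degree_eq [Fintype V] [DecidableEq V] (G : SimpleGraph V) [DecidableRel G.Adj]
    (K : Finset V) : ∑ x ∈ K, G.degree x = ∑ v : V, (K.filter (fun x => G.Adj v x)).card := by
  have h1 : ∀ x ∈ K, G.degree x = ∑ v : V, if G.Adj v x then 1 else 0 := by
    intro x _
    rw [← SimpleGraph.card_neighborFinset_eq_degree, Finset.card_eq_sum_ones,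
      ← Finset.sum_filter]
    apply Finset.sum_congr _ (fun _ _ => rfl)
    ext v
    simp [SimpleGraph.adj_comm]
  rw [Finset.sum_congr rfl h1, Finset.sum_comm]
  apply Finset.sum_congr rfl
  intro v _
  rw [Finset.card_filter]

theorem clique_deg [Fintype V] [DecidableEq V] (G : SimpleGraph V) [DecidableRel G.Adj] (r : ℕ)
    (hn : ¬ ∃ c : V → Fin (r + 1), ∀ u v, G.Adj u v → c u ≠ c v)
    (hx : ∀ x, ∃ c : V → Fin (r + 1), ∀ u v, u ≠ x → v ≠ x → G.Adj u v → c u ≠ c v)
    (K : Finset V) (hK : G.IsClique K) (hcard : K.card ≤ r + 1) :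
    (∑ x ∈ K, G.degree x) + 2 * (Kᶜ).card
      ≤ K.card * (K.card - 1) + (r + 1) * (Kᶜ).card + 2 := by
  classical
  -- an injective colouring of the clique
  obtain ⟨e, he⟩ : ∃ e : V → Fin (r + 1), Set.InjOn e K := by
    have h1 : Fintype.card K ≤ Fintype.card (Fin (r + 1)) := by simpa using hcard
    obtain ⟨f⟩ := Function.Embedding.nonempty_of_card_le h1
    refine ⟨fun v => if h : v ∈ K then f ⟨v, h⟩ else 0, ?_⟩
    intro a ha b hb hab
    have ha' : a ∈ K := ha
    have hb' : b ∈ K := hb
    simp only [ha', hb', dif_pos] at hab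
    exact congrArg Subtype.val (f.injective hab)
  set L : V → Finset (Fin (r + 1)) := fun v => univ \ (K.filter (fun x => G.Adj v x)).image e
    with hL
  have hLcard : ∀ v, (L v).card + (K.filter (fun x => G.Adj v x)).card = r + 1 := by
    intro v
    have h1 : ((K.filter (fun x => G.Adj v x)).image e).card
        = (K.filter (fun x => G.Adj v x)).card := by
      apply Finset.card_image_of_injOn
      intro a ha b hb hab
      exact he (Finset.mem_filter.mp ha).1 (Finset.mem_filter.mp hb).1 hab
    have h2 := Finset.card_sdiff_add_card_eq_card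
      (Finset.subset_univ ((K.filter (fun x => G.Adj v x)).image e))
    simp only [hL]
    rw [← h1, h2]
    simp
  have hmemL : ∀ v a, a ∈ L v ↔ ∀ x ∈ K, G.Adj v x → e x ≠ a := by
    intro v a
    simp only [hL, Finset.mem_sdiff, Finset.mem_univ, true_and, Finset.mem_image,
      Finset.mem_filter, not_exists, not_and, and_imp]
  have hnot : ¬ LCol G (Kᶜ) L := by
    rintro ⟨c, hc1, hc2⟩
    apply hn
    refine ⟨fun v => if v ∈ K then e v else c v, ?_⟩
    intro u v huv
    by_cases hu : u ∈ K
    · by_cases hv : v ∈ K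
      · simp only [hu, hv, if_true]
        intro h
        exact G.ne_of_adj huv (he hu hv h)
      · simp only [hu, hv, if_true, if_false]
        exact (hmemL v (c v)).mp (hc1 v (by simpa using hv)) u hu huv.symm
    · by_cases hv : v ∈ K
      · simp only [hu, hv, if_true, if_false]
        exact ((hmemL u (c u)).mp (hc1 u (by simpa using hu)) v hv huv).symm
      · simp only [hu, hv, if_false]
        exact hc2 u (by simpa using hu) v (by simpa using hv) huv
  have hcrit : ∀ z ∈ Kᶜ, LCol G ((Kᶜ).erase z) L := by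
    intro z hz
    have hzK : z ∉ K := by simpa using hz
    obtain ⟨c, hc⟩ := hx z
    have hcinj : Set.InjOn c K := by
      intro a ha b hb hab
      by_contra hne
      have ha' : a ≠ z := fun h => hzK (h ▸ ha)
      have hb' : b ≠ z := fun h => hzK (h ▸ hb)
      exact hc a b ha' hb' (hK ha hb hne) hab
    -- a permutation of the colours
    obtain ⟨σ, hσ⟩ : ∃ σ : Fin (r + 1) → Fin (r + 1), Function.Injective σ ∧
        ∀ x ∈ K, σ (c x) = e x := by
      have hsurj : ∀ a ∈ c '' (K : Set V), ∃ x ∈ K, c x = a := by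
        rintro a ⟨x, hx, rfl⟩; exact ⟨x, hx, rfl⟩
      set f : Fin (r + 1) → Fin (r + 1) := fun a =>
        if h : ∃ x ∈ K, c x = a then e (Classical.choose h) else 0 with hf
      have hfc : ∀ x ∈ K, f (c x) = e x := by
        intro x hxK
        have h : ∃ y ∈ K, c y = c x := ⟨x, hxK, rfl⟩
        have h2 := Classical.choose_spec h
        simp only [hf, dif_pos h]
        congr 1
        exact hcinj h2.1 hxK h2.2
      have hmaps : Set.MapsTo f (c '' (K : Set V)) (univ : Finset (Fin (r + 1))) := by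
        intro a _; simp
      have hinj : Set.InjOn f (c '' (K : Set V)) := by
        rintro a ⟨x, hx, rfl⟩ b ⟨y, hy, rfl⟩ hab
        rw [hfc x hx, hfc y hy] at hab
        rw [he hx hy hab]
      obtain ⟨g, hg⟩ := Set.MapsTo.exists_equiv_extend_of_card_eq (by simp) hmaps hinj
      refine ⟨fun a => (g a : Fin (r + 1)), ?_, ?_⟩
      · intro a b hab
        exact g.injective (Subtype.ext hab)
      · intro x hx
        rw [← hfc x hx]
        exact hg (c x) ⟨x, hx, rfl⟩
    refine ⟨fun v => σ (c v), ?_, ?_⟩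
    · intro v hv
      obtain ⟨hvz, hvK⟩ := Finset.mem_erase.mp hv
      rw [hmemL]
      intro x hx hvx
      have hxz : x ≠ z := fun h => hzK (h ▸ hx)
      rw [← hσ.2 x hx]
      intro h
      exact hc x v hxz hvz hvx.symm (hσ.1 h)
    · intro u hu v hv huv h
      obtain ⟨huz, _⟩ := Finset.mem_erase.mp hu
      obtain ⟨hvz, _⟩ := Finset.mem_erase.mp hv
      exact hc u v huz hvz huv (hσ.1 h)
  have hmain := list_crit G _ (Kᶜ) L rfl hnot hcrit
  -- counting
  have h1 : ∑ v ∈ Kᶜ, (L v).card + ∑ v ∈ Kᶜ, (K.filter (fun x => G.Adj v x)).card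
      = (r + 1) * (Kᶜ).card := by
    rw [← Finset.sum_add_distrib, Finset.sum_congr rfl (fun v _ => hLcard v), Finset.sum_const,
      smul_eq_mul, mul_comm]
  have h2 : ∑ v ∈ K, (K.filter (fun x => G.Adj v x)).card ≤ K.card * (K.card - 1) := by
    have : ∀ v ∈ K, (K.filter (fun x => G.Adj v x)).card ≤ K.card - 1 := by
      intro v hv
      rw [← Finset.card_erase_of_mem hv]
      apply Finset.card_le_card
      intro x hx
      obtain ⟨hxK, hvx⟩ := Finset.mem_filter.mp hx
      exact Finset.mem_erase.mpr ⟨(G.ne_of_adj hvx).symm, hxK⟩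
    calc _ ≤ ∑ v ∈ K, (K.card - 1) := Finset.sum_le_sum this
      _ = _ := by rw [Finset.sum_const, smul_eq_mul]
  have h3 : ∑ x ∈ K, G.degree x = ∑ v ∈ K, (K.filter (fun x => G.Adj v x)).card
      + ∑ v ∈ Kᶜ, (K.filter (fun x => G.Adj v x)).card := by
    rw [sum_degree_eq, Finset.sum_add_sum_compl]
  omega

end Pool.Agent.Lib.MP_f053ce_co
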