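import Mathlib
import Pool.Agent.Lib.MP_f053ce_co.CliqueDeg

namespace Pool.Agent.Lib.MP_f053ce_co

open Finset

variable {V : Type*}

/-- Turan type bound: if all `t`-cliques inside `U` have degree sum at most `T` then the
degrees in `U` average to at most `T / t` (up to a small error). -/
theorem turan_aux [Fintype V] [DecidableEq V] (G : SimpleGraph V) [DecidableRel G.Adj] :
    ∀ (t : ℕ) (U : Finset V) (T b : ℝ), 0 ≤ b →
      (Fintype.card V : ℝ) * (t + 1 : ℕ) ≤ U.card + T + b →
      (∀ K : Finset V, K ⊆ U → G.IsNClique (t + 1) K → ∑ x ∈ K, (G.degree x : ℝ) ≤ T) →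
      ∑ v ∈ U, (G.degree v : ℝ) ≤ U.card * T / (t + 1 : ℕ) + b ^ 2 / 4 * (1 - 1 / (t + 1 : ℕ)) := by
  classical
  intro t
  induction t with
  | zero =>
    intro U T b _ _ hT
    have h1 : ∀ v ∈ U, (G.degree v : ℝ) ≤ T := by
      intro v hv
      have := hT {v} (by simpa using hv) (by simp [SimpleGraph.isNClique_iff])
      simpa using this
    calc ∑ v ∈ U, (G.degree v : ℝ) ≤ ∑ v ∈ U, T := Finset.sum_le_sum h1
      _ = U.card * T := by rw [Finset.sum_const, nsmul_eq_mul]
      _ = _ := by norm_num
  | succ t ih =>
    intro U T b hb hcard hT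
    rcases Finset.eq_empty_or_nonempty U with hU | hU
    · subst hU
      simp only [Finset.sum_empty, Finset.card_empty, Nat.cast_zero, zero_mul, zero_div, zero_add]
      have h1 : (1 : ℝ) / ((t + 1 + 1 : ℕ) : ℝ) ≤ 1 := by
        rw [div_le_one (by positivity)]
        push_cast
        have : (0 : ℝ) ≤ t := Nat.cast_nonneg t
        linarith
      have h2 : (0 : ℝ) ≤ b ^ 2 / 4 := by positivity
      exact mul_nonneg h2 (by linarith)
    · obtain ⟨x, hxU, hxmax⟩ := Finset.exists_max_image U (fun v => G.degree v) hU
      set d : ℝ := (G.degree x : ℝ) with hd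
      set U' := U.filter (fun v => G.Adj x v) with hU'
      set s : ℝ := ((U.filter (fun v => ¬ G.Adj x v)).card : ℝ) with hs
      set n : ℝ := (Fintype.card V : ℝ) with hn
      have hdmax : ∀ v ∈ U, (G.degree v : ℝ) ≤ d := fun v hv => by
        have := hxmax v hv
        rw [hd]
        exact_mod_cast this
      have hsum : (U'.card : ℝ) + s = U.card := by
        rw [hs, hU']
        exact_mod_cast Finset.card_filter_add_card_filter_not (s := U) (fun v => G.Adj x v)
      have hsle : s ≤ n - d := by
        have h1 : (U.filter (fun v => ¬ G.Adj x v)).card + G.degree x ≤ Fintype.card V := by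
          rw [← SimpleGraph.card_neighborFinset_eq_degree, ← Finset.card_union_of_disjoint]
          · exact Finset.card_le_univ _
          · rw [Finset.disjoint_left]
            intro v hv hv'
            have h2 := (Finset.mem_filter.mp hv).2
            exact h2 ((SimpleGraph.mem_neighborFinset G x v).mp hv')
        have h2 : ((U.filter (fun v => ¬ G.Adj x v)).card : ℝ) + G.degree x ≤ Fintype.card V := by
          exact_mod_cast h1
        rw [hs, hn, hd]
        linarith
      -- the induction hypothesis
      have hcard' : n * ((t + 1 : ℕ) : ℝ) ≤ (U'.card : ℝ) + (T - d) + b := by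
        have e1 : n * ((t + 1 + 1 : ℕ) : ℝ) = n * ((t + 1 : ℕ) : ℝ) + n := by push_cast; ring
        rw [e1] at hcard
        linarith
      have hT' : ∀ K : Finset V, K ⊆ U' → G.IsNClique (t + 1) K →
          ∑ v ∈ K, (G.degree v : ℝ) ≤ T - d := by
        intro K hKU hK
        have hxK : x ∉ K := by
          intro hxK
          have := (Finset.mem_filter.mp (hKU hxK)).2
          exact G.loopless.irrefl x this
        have h1 : G.IsNClique (t + 1 + 1) (insert x K) := by
          apply hK.insert
          intro v hv
          exact (Finset.mem_filter.mp (hKU hv)).2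
        have h2 := hT (insert x K) (by
          intro v hv
          rcases Finset.mem_insert.mp hv with h | h
          · exact h ▸ hxU
          · exact (Finset.mem_filter.mp (hKU h)).1) h1
        rw [Finset.sum_insert hxK] at h2
        linarith
      have hIH := ih U' (T - d) b hb hcard' hT'
      have hsplit : ∑ v ∈ U, (G.degree v : ℝ)
          = ∑ v ∈ U', (G.degree v : ℝ) + ∑ v ∈ U.filter (fun v => ¬ G.Adj x v),
            (G.degree v : ℝ) := by
        rw [hU']
        exact (Finset.sum_filter_add_sum_filter_not U (fun v => G.Adj x v) _).symm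
      have hpart : ∑ v ∈ U.filter (fun v => ¬ G.Adj x v), (G.degree v : ℝ) ≤ s * d := by
        calc _ ≤ ∑ v ∈ U.filter (fun v => ¬ G.Adj x v), d :=
              Finset.sum_le_sum (fun v hv => hdmax v (Finset.mem_filter.mp hv).1)
          _ = s * d := by rw [Finset.sum_const, nsmul_eq_mul]
      set u : ℝ := (U.card : ℝ) with hu
      set τ : ℝ := ((t + 1 : ℕ) : ℝ) with hτ
      have hτ1 : (1 : ℝ) ≤ τ := by rw [hτ]; push_cast; linarith [Nat.cast_nonneg (α := ℝ) t]
      have eτ : ((t + 1 + 1 : ℕ) : ℝ) = τ + 1 := by rw [hτ]; push_cast; ring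
      rw [eτ] at hcard ⊢
      have hu0 : (0 : ℝ) ≤ u := Nat.cast_nonneg _
      have hs0 : (0 : ℝ) ≤ s := Nat.cast_nonneg _
      have hb2 : (0 : ℝ) ≤ b ^ 2 / 4 := by positivity
      by_cases hcase : d ≤ T / (τ + 1)
      · have h1 : ∑ v ∈ U, (G.degree v : ℝ) ≤ u * d := by
          calc _ ≤ ∑ v ∈ U, d := Finset.sum_le_sum hdmax
            _ = u * d := by rw [Finset.sum_const, nsmul_eq_mul]
        have h2 : u * d ≤ u * T / (τ + 1) := by
          rw [mul_div_assoc]
          exact mul_le_mul_of_nonneg_left hcase hu0
        have h3 : (0 : ℝ) ≤ b ^ 2 / 4 * (1 - 1 / (τ + 1)) := by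
          apply mul_nonneg hb2
          rw [sub_nonneg, div_le_one (by linarith)]
          linarith
        linarith
      · push Not at hcase
        -- write d = T/(τ+1) + δ
        set δ : ℝ := d - T / (τ + 1) with hδ
        have hδ0 : 0 < δ := by rw [hδ]; linarith
        have hTd : T = (d - δ) * (τ + 1) := by
          rw [hδ]; field_simp; ring
        have hU'c : (U'.card : ℝ) = u - s := by linarith
        rw [hU'c] at hIH
        have e1 : (u - s) * (T - d) / τ = (u - s) * (d - δ) - (u - s) * δ / τ := by
          rw [hTd]; field_simp; ring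
        have e2 : u * T / (τ + 1) = u * (d - δ) := by
          rw [hTd]; field_simp
        rw [e1] at hIH
        rw [e2]
        -- goal reduces to an inequality
        have key : s * δ + s * (d - δ) + ((u - s) * (d - δ) - (u - s) * δ / τ)
            ≤ u * (d - δ) + b ^ 2 / (4 * τ * (τ + 1)) := by
          have h1 : s * (τ + 1) - u ≤ b - (τ + 1) * δ := by
            have h2 : s * (τ + 1) ≤ (n - d) * (τ + 1) :=
              mul_le_mul_of_nonneg_right hsle (by linarith)
            have h3 : n * (τ + 1) ≤ u + (d - δ) * (τ + 1) + b := by rw [← hTd]; exact hcard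
            nlinarith
          have h4 : s * δ - (u - s) * δ / τ = δ / τ * (s * (τ + 1) - u) := by
            field_simp; ring
          have h5 : δ / τ * (s * (τ + 1) - u) ≤ δ / τ * (b - (τ + 1) * δ) :=
            mul_le_mul_of_nonneg_left h1 (by positivity)
          have h6 : δ / τ * (b - (τ + 1) * δ) ≤ b ^ 2 / (4 * τ * (τ + 1)) := by
            rw [div_mul_eq_mul_div, div_le_div_iff₀ (by linarith) (by positivity)]
            have h7 : 0 ≤ τ * (b - 2 * (τ + 1) * δ) ^ 2 := by positivity
            nlinarith
          linarith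
        have e3 : b ^ 2 / 4 * (1 - 1 / τ) + b ^ 2 / (4 * τ * (τ + 1))
            = b ^ 2 / 4 * (1 - 1 / (τ + 1)) := by
          field_simp; ring
        have e4 : s * δ + s * (d - δ) = s * d := by ring
        linarith

end Pool.Agent.Lib.MP_f053ce_co
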