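import Mathlib
import Pool.Agent.Lib.MP_f053ce_co.Turan

namespace Pool.Agent.Lib.MP_f053ce_co

open Finset

variable {V : Type*}

/-- two injections into a finite type differ by a permutation of the target -/
theorem exists_recolor {ι β : Type*} [Fintype β] [DecidableEq β] (f g : ι → β)
    (hf : Function.Injective f) (hg : Function.Injective g) :
    ∃ σ : β → β, Function.Injective σ ∧ ∀ i, σ (f i) = g i := by
  classical
  rcases isEmpty_or_nonempty ι with h0 | ⟨⟨i0⟩⟩
  · exact ⟨id, Function.injective_id, fun i => (h0.false i).elim⟩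
  have : Nonempty ι := ⟨i0⟩
  set φ : β → β := fun a => g (Function.invFun f a) with hφ
  have hφf : ∀ i, φ (f i) = g i := by
    intro i
    simp only [hφ]
    rw [Function.leftInverse_invFun hf i]
  have hmaps : Set.MapsTo φ (Set.range f) (univ : Finset β) := by
    intro a _; simp
  have hinj : Set.InjOn φ (Set.range f) := by
    rintro a ⟨i, rfl⟩ b ⟨j, rfl⟩ hab
    rw [hφf i, hφf j] at hab
    rw [hg hab]
  obtain ⟨e, he⟩ := Set.MapsTo.exists_equiv_extend_of_card_eq (by simp) hmaps hinj
  refine ⟨fun a => (e a : β), ?_, ?_⟩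
  · intro a b hab
    exact e.injective (Subtype.ext hab)
  · intro i
    rw [← hφf i]
    exact he (f i) ⟨i, rfl⟩

/-- The vertices outside the atypical set `Z` are few: `n ≤ r + |Z| + (r + 2 r ^ 2) |Z| ^ 2`. -/
theorem core_count [Fintype V] [DecidableEq V] (G : SimpleGraph V) (r : ℕ)
    (hn : ¬ ∃ c : V → Fin (r + 1), ∀ u v, G.Adj u v → c u ≠ c v)
    (hx : ∀ x, ∃ c : V → Fin (r + 1), ∀ u v, u ≠ x → v ≠ x → G.Adj u v → c u ≠ c v)
    (x : Fin r → V) (hclq : ∀ i j, i ≠ j → G.Adj (x i) (x j)) (Z : Finset V) (p : V → Fin r)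
    (hadj : ∀ v, v ∉ Z → v ∉ Set.range x → ∀ j, j ≠ p v → G.Adj v (x j))
    (hnadj : ∀ v, v ∉ Z → v ∉ Set.range x → ¬ G.Adj v (x (p v)))
    (hind : ∀ v w, v ∉ Z → v ∉ Set.range x → w ∉ Z → w ∉ Set.range x → p v = p w →
      ¬ G.Adj v w) :
    Fintype.card V ≤ r + Z.card + (r + 2 * r ^ 2) * Z.card ^ 2 := by
  classical
  -- the chosen vertices
  set Q1 : V → V → Fin r → V → Prop := fun z z' i v =>
    v ∉ Z ∧ v ∉ Set.range x ∧ p v = i ∧ G.Adj v z ∧ G.Adj v z' with hQ1
  set Q2 : V → V → Fin r → Fin r → V → V → Prop := fun z z' i j v w =>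
    v ∉ Z ∧ v ∉ Set.range x ∧ w ∉ Z ∧ w ∉ Set.range x ∧ p v = i ∧ p w = j ∧ G.Adj v w ∧
      G.Adj v z ∧ G.Adj w z' with hQ2
  set f1 : V × V × Fin r → V := fun q =>
    if h : ∃ v, Q1 q.1 q.2.1 q.2.2 v then Classical.choose h else q.1 with hf1
  set f2 : V × V × Fin r × Fin r → V × V := fun q =>
    if h : ∃ vw : V × V, Q2 q.1 q.2.1 q.2.2.1 q.2.2.2 vw.1 vw.2 then Classical.choose h
    else (q.1, q.1) with hf2
  have hf1s : ∀ z z' i, (∃ v, Q1 z z' i v) → Q1 z z' i (f1 (z, z', i)) := by
    intro z z' i h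
    simp only [hf1, dif_pos h]
    exact Classical.choose_spec h
  have hf2s : ∀ z z' i j, (∃ v w, Q2 z z' i j v w) →
      Q2 z z' i j (f2 (z, z', i, j)).1 (f2 (z, z', i, j)).2 := by
    intro z z' i j h
    have h' : ∃ vw : V × V, Q2 z z' i j vw.1 vw.2 := by
      obtain ⟨v, w, hvw⟩ := h
      exact ⟨(v, w), hvw⟩
    simp only [hf2, dif_pos h']
    exact Classical.choose_spec h'
  set W1 : Finset V := (Z ×ˢ Z ×ˢ (univ : Finset (Fin r))).image f1 with hW1
  set W2 : Finset V := (Z ×ˢ Z ×ˢ (univ : Finset (Fin r)) ×ˢ (univ : Finset (Fin r))).image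
    (fun q => (f2 q).1) with hW2
  set W3 : Finset V := (Z ×ˢ Z ×ˢ (univ : Finset (Fin r)) ×ˢ (univ : Finset (Fin r))).image
    (fun q => (f2 q).2) with hW3
  set W : Finset V := (univ.image x ∪ Z) ∪ (W1 ∪ (W2 ∪ W3)) with hW
  have hcardW : W.card ≤ r + Z.card + (r + 2 * r ^ 2) * Z.card ^ 2 := by
    have c0 : (univ.image x).card ≤ r := by
      calc _ ≤ (univ : Finset (Fin r)).card := Finset.card_image_le
        _ = r := by simp
    have c1 : W1.card ≤ Z.card * (Z.card * r) := by
      calc _ ≤ (Z ×ˢ Z ×ˢ (univ : Finset (Fin r))).card := Finset.card_image_le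
        _ = _ := by simp [Finset.card_product]
    have c2 : W2.card ≤ Z.card * (Z.card * (r * r)) := by
      calc _ ≤ (Z ×ˢ Z ×ˢ (univ : Finset (Fin r)) ×ˢ (univ : Finset (Fin r))).card :=
            Finset.card_image_le
        _ = _ := by simp [Finset.card_product]
    have c3 : W3.card ≤ Z.card * (Z.card * (r * r)) := by
      calc _ ≤ (Z ×ˢ Z ×ˢ (univ : Finset (Fin r)) ×ˢ (univ : Finset (Fin r))).card :=
            Finset.card_image_le
        _ = _ := by simp [Finset.card_product]
    have u1 : W.card ≤ (univ.image x ∪ Z).card + (W1 ∪ (W2 ∪ W3)).card :=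
      Finset.card_union_le _ _
    have u2 : (univ.image x ∪ Z).card ≤ (univ.image x).card + Z.card := Finset.card_union_le _ _
    have u3 : (W1 ∪ (W2 ∪ W3)).card ≤ W1.card + (W2 ∪ W3).card := Finset.card_union_le _ _
    have u4 : (W2 ∪ W3).card ≤ W2.card + W3.card := Finset.card_union_le _ _
    nlinarith
  by_contra hlt
  push Not at hlt
  have hlt' : W.card < (univ : Finset V).card := by
    rw [Finset.card_univ]; omega
  obtain ⟨z0, _, hz0⟩ := Finset.exists_mem_notMem_of_card_lt_card hlt'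
  obtain ⟨c0, hc0⟩ := hx z0
  have hne : ∀ w ∈ W, w ≠ z0 := fun w hw h => hz0 (h ▸ hw)
  have hxW : ∀ i, x i ∈ W := by
    intro i
    rw [hW]
    exact Finset.mem_union_left _ (Finset.mem_union_left _ (Finset.mem_image_of_mem _ (by simp)))
  have hZW : ∀ z ∈ Z, z ∈ W := by
    intro z hz
    rw [hW]
    exact Finset.mem_union_left _ (Finset.mem_union_right _ hz)
  obtain ⟨σ, hσinj, hσ⟩ := exists_recolor (fun i => c0 (x i)) (fun i : Fin r => i.castSucc)
    (by
      intro i j hij
      by_contra hne'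
      exact hc0 (x i) (x j) (hne _ (hxW i)) (hne _ (hxW j)) (hclq i j hne') hij)
    (Fin.castSucc_injective r)
  set c : V → Fin (r + 1) := fun v => σ (c0 v) with hc
  have hcx : ∀ i, c (x i) = i.castSucc := hσ
  have hcW : ∀ u ∈ W, ∀ v ∈ W, G.Adj u v → c u ≠ c v := by
    intro u hu v hv huv h
    exact hc0 u v (hne u hu) (hne v hv) huv (hσinj h)
  -- colours of good vertices in W
  have hgood : ∀ v ∈ W, v ∉ Z → v ∉ Set.range x → c v = (p v).castSucc ∨ c v = Fin.last r := by
    intro v hv hvZ hvx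
    by_contra hcon
    push Not at hcon
    obtain ⟨h1, h2⟩ := hcon
    obtain ⟨j, hj⟩ : ∃ j : Fin r, c v = j.castSucc := by
      obtain ⟨j, hj⟩ := Fin.exists_castSucc_eq.mpr h2
      exact ⟨j, hj.symm⟩
    have hjp : j ≠ p v := by
      intro h
      exact h1 (by rw [hj, h])
    exact hcW v hv (x j) (hxW j) (hadj v hvZ hvx j hjp) (by rw [hj, hcx j])
  -- the new colouring
  apply hn
  refine ⟨fun v => if v ∈ Z ∨ v ∈ Set.range x then c v
    else if ∃ z ∈ Z, G.Adj v z ∧ c z = (p v).castSucc then Fin.last r else (p v).castSucc, ?_⟩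
  -- symmetric reduction
  have hS0W : ∀ v, (v ∈ Z ∨ v ∈ Set.range x) → v ∈ W := by
    intro v hv
    rcases hv with hv | ⟨i, rfl⟩
    · exact hZW v hv
    · exact hxW i
  have key : ∀ u v, ¬ (v ∈ Z ∨ v ∈ Set.range x) → (u ∈ Z ∨ u ∈ Set.range x) → G.Adj u v →
      c u ≠ (if ∃ z ∈ Z, G.Adj v z ∧ c z = (p v).castSucc then Fin.last r
        else (p v).castSucc) := by
    intro u v hv hu huv
    push Not at hv
    obtain ⟨hvZ, hvx⟩ := hv
    rcases hu with hu | ⟨j, rfl⟩
    · split_ifs with h
      · obtain ⟨z', hz', hvz', hcz'⟩ := h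
        intro hcu
        have hex : ∃ w, Q1 u z' (p v) w := ⟨v, hvZ, hvx, rfl, huv.symm, hvz'⟩
        have hs := hf1s u z' (p v) hex
        have hmem : f1 (u, z', p v) ∈ W := by
          rw [hW]
          apply Finset.mem_union_right
          apply Finset.mem_union_left
          rw [hW1]
          apply Finset.mem_image_of_mem
          simp [hu, hz']
        obtain ⟨s1, s2, s3, s4, s5⟩ := hs
        rcases hgood _ hmem s1 s2 with h | h
        · exact hcW _ hmem z' (hZW z' hz') s5 (by rw [h, s3, hcz'])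
        · exact hcW _ hmem u (hZW u hu) s4 (by rw [h, hcu])
      · intro hcu
        exact h ⟨u, hu, huv.symm, hcu⟩
    · have hj : j ≠ p v := by
        intro h
        apply hnadj v hvZ hvx
        rw [← h]; exact huv.symm
      rw [hcx j]
      split_ifs
      · exact (Fin.castSucc_lt_last j).ne
      · intro h
        exact hj (Fin.castSucc_injective r h)
  intro u v huv
  by_cases hu : u ∈ Z ∨ u ∈ Set.range x
  · by_cases hv : v ∈ Z ∨ v ∈ Set.range x
    · simp only [if_pos hu, if_pos hv]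
      exact hcW u (hS0W u hu) v (hS0W v hv) huv
    · simp only [if_pos hu, if_neg hv]
      exact key u v hv hu huv
  · by_cases hv : v ∈ Z ∨ v ∈ Set.range x
    · simp only [if_neg hu, if_pos hv]
      exact (key v u hu hv huv.symm).symm
    · simp only [if_neg hu, if_neg hv]
      push Not at hu hv
      have hpne : p u ≠ p v := fun h => hind u v hu.1 hu.2 hv.1 hv.2 h huv
      split_ifs with h1 h2 h2
      · exfalso
        obtain ⟨z, hz, huz, hcz⟩ := h1
        obtain ⟨z', hz', hvz', hcz'⟩ := h2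
        have hex : ∃ a b, Q2 z z' (p u) (p v) a b :=
          ⟨u, v, hu.1, hu.2, hv.1, hv.2, rfl, rfl, huv, huz, hvz'⟩
        have hs := hf2s z z' (p u) (p v) hex
        have hq : (z, z', p u, p v) ∈ Z ×ˢ Z ×ˢ (univ : Finset (Fin r)) ×ˢ
            (univ : Finset (Fin r)) := by simp [hz, hz']
        have hmem1 : (f2 (z, z', p u, p v)).1 ∈ W := by
          rw [hW]
          apply Finset.mem_union_right
          apply Finset.mem_union_right
          apply Finset.mem_union_left
          rw [hW2]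
          exact Finset.mem_image.mpr ⟨_, hq, rfl⟩
        have hmem2 : (f2 (z, z', p u, p v)).2 ∈ W := by
          rw [hW]
          apply Finset.mem_union_right
          apply Finset.mem_union_right
          apply Finset.mem_union_right
          rw [hW3]
          exact Finset.mem_image.mpr ⟨_, hq, rfl⟩
        obtain ⟨s1, s2, s3, s4, s5, s6, s7, s8, s9⟩ := hs
        have ha : c (f2 (z, z', p u, p v)).1 = Fin.last r := by
          rcases hgood _ hmem1 s1 s2 with h | h
          · exact absurd (by rw [h, s5, hcz]) (hcW _ hmem1 z (hZW z hz) s8)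
          · exact h
        have hb : c (f2 (z, z', p u, p v)).2 = Fin.last r := by
          rcases hgood _ hmem2 s3 s4 with h | h
          · exact absurd (by rw [h, s6, hcz']) (hcW _ hmem2 z' (hZW z' hz') s9)
          · exact h
        exact hcW _ hmem1 _ hmem2 s7 (by rw [ha, hb])
      · exact (Fin.castSucc_lt_last _).ne'
      · exact (Fin.castSucc_lt_last _).ne
      · intro h
        exact hpne (Fin.castSucc_injective r h)

end Pool.Agent.Lib.MP_f053ce_co
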