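import Mathlib

namespace Pool.Agent.Lib.MP_f053ce_co

/-- alternating pattern on an odd cycle with the position `e` left out -/
def alt (e l : ℕ) : Prop := (e < l ∧ (l - e) % 2 = 1) ∨ (l < e ∧ (e - l) % 2 = 0)

instance (e l : ℕ) : Decidable (alt e l) := by unfold alt; infer_instance

/-- colours of the list vertices: the distinguished one gets `X`, all others `P` -/
def pcol {C : Type*} (d : ℕ) (X P : C) (z : ℕ) : C := if z = d then X else P

/-- colours of the vertices of the odd cycle -/
def scol {C : Type*} (e d m : ℕ) (X X' P : C) (l : ℕ) : C :=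
  if l = e then P else if alt e l then X' else if min l (m - 1) = d then P else X

variable {C : Type*}

theorem scol_mem (e d m : ℕ) (X X' P : C) (l : ℕ) :
    scol e d m X X' P l = P ∨ scol e d m X X' P l = X' ∨ scol e d m X X' P l = X := by
  unfold scol
  split_ifs <;> simp

theorem pcol_mem (d : ℕ) (X P : C) (z : ℕ) : pcol d X P z = P ∨ pcol d X P z = X := by
  unfold pcol
  split_ifs <;> simp

/-- properness along the cycle, all cycle vertices present -/
theorem scol_cycle1 {d m L : ℕ} {X X' P : C} (hd : d < m) (hm : 2 ≤ m) (hmL : m ≤ L)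
    (hL : L % 2 = 1) (h1 : X ≠ X') (h2 : X ≠ P) (h3 : X' ≠ P) (l : ℕ) (hl : l < L) :
    scol d d m X X' P l ≠ scol d d m X X' P ((l + 1) % L) := by
  unfold scol
  rcases Nat.lt_or_ge (l + 1) L with h | h
  · rw [Nat.mod_eq_of_lt h]
    split_ifs <;> first | assumption | exact h1.symm | exact h2.symm | exact h3.symm | (exfalso; omega) | (exfalso; simp only [alt] at *; omega)
  · have : l + 1 = L := by omega
    rw [this, Nat.mod_self]
    split_ifs <;> first | assumption | exact h1.symm | exact h2.symm | exact h3.symm | (exfalso; omega) | (exfalso; simp only [alt] at *; omega)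

/-- properness along the cycle with the vertex `e` deleted -/
theorem scol_cycle2 {e m L : ℕ} {X X' P : C} (he : e < L) (hm : 2 ≤ m)
    (hL : L % 2 = 1) (h1 : X ≠ X') (l : ℕ) (hl : l < L)
    (hle : l ≠ e) (hle' : (l + 1) % L ≠ e) :
    scol e m m X X' P l ≠ scol e m m X X' P ((l + 1) % L) := by
  unfold scol
  rcases Nat.lt_or_ge (l + 1) L with h | h
  · rw [Nat.mod_eq_of_lt h] at hle' ⊢
    split_ifs <;> first | assumption | exact h1.symm | (exfalso; omega) | (exfalso; simp only [alt] at *; omega)
  · have : l + 1 = L := by omega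
    rw [this, Nat.mod_self] at hle' ⊢
    split_ifs <;> first | assumption | exact h1.symm | (exfalso; omega) | (exfalso; simp only [alt] at *; omega)

/-- properness between cycle and list vertices -/
theorem scol_pcol1 {d m : ℕ} {X X' P : C} (hd : d < m) (h1 : X ≠ X') (h2 : X ≠ P) (h3 : X' ≠ P)
    (l : ℕ) : pcol d X P (min l (m - 1)) ≠ scol d d m X X' P l := by
  unfold scol pcol
  split_ifs <;> first | assumption | exact h1.symm | exact h2.symm | exact h3.symm | (exfalso; omega) | (exfalso; simp only [alt] at *; omega)

theorem scol_pcol2 {e m : ℕ} {X X' P : C} (hm : 2 ≤ m) (h2 : X ≠ P) (h3 : X' ≠ P)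
    (l : ℕ) (hle : l ≠ e) : pcol m X P (min l (m - 1)) ≠ scol e m m X X' P l := by
  unfold scol pcol
  split_ifs <;> first | assumption | exact h2.symm | exact h3.symm | (exfalso; omega) | (exfalso; simp only [alt] at *; omega)

/-- an odd cycle has no proper colouring with two colours -/
theorem odd_cycle {L : ℕ} (hL : L % 2 = 1) (f : ℕ → C) (X X' : C)
    (hf : ∀ l < L, f l = X ∨ f l = X') (hc : ∀ l < L, f l ≠ f ((l + 1) % L)) : False := by
  have key : ∀ l, l < L → (l % 2 = 0 → f l = f 0) ∧ (l % 2 = 1 → f l ≠ f 0) := by
    intro l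
    induction l with
    | zero => intro _; exact ⟨fun _ => rfl, fun h => absurd h (by norm_num)⟩
    | succ l ih =>
      intro hl
      obtain ⟨h1, h2⟩ := ih (by omega)
      have h3 := hc l (by omega)
      rw [Nat.mod_eq_of_lt hl] at h3
      have a0 := hf 0 (by omega)
      have a1 := hf l (by omega)
      have a2 := hf (l + 1) hl
      constructor
      · intro h
        have h4 := h2 (by omega)
        rcases a0 with a0 | a0 <;> rcases a1 with a1 | a1 <;> rcases a2 with a2 | a2 <;>
          simp_all
      · intro h
        have h4 := h1 (by omega)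
        intro h5
        apply h3
        rw [h4, h5]
  have hlast := (key (L - 1) (by omega)).1 (by omega)
  have := hc (L - 1) (by omega)
  have e : L - 1 + 1 = L := by omega
  rw [e, Nat.mod_self] at this
  exact this hlast

end Pool.Agent.Lib.MP_f053ce_co
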