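import Mathlib
import Pool.Agent.Lib.MP_f053ce_co.Side
import Pool.Agent.Lib.MP_f053ce_co.Core

namespace Pool.Agent.Lib.MP_f053ce_co

open Finset

/-- vertices of the construction -/
inductive Vtx (r : ℕ) (m L : Fin r → Bool → ℕ) : Type
  | a (i : Fin r) (x : Fin (m i false)) (y : Fin (m i true)) : Vtx r m L
  | R (i : Fin r) (b : Bool) : Vtx r m L
  | p (i : Fin r) (b : Bool) (z : Fin (m i b)) : Vtx r m L
  | s (i : Fin r) (b : Bool) (l : Fin (L i b)) : Vtx r m L
  | y (b : Bool) : Vtx r m L

variable {r : ℕ} {m L : Fin r → Bool → ℕ}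

/-- one direction of the adjacency relation -/
def rel (nxt : Fin r → Fin r) : Vtx r m L → Vtx r m L → Prop
  | .a i _ _, .a j _ _ => i ≠ j
  | .a i _ _, .R j _ => i ≠ j
  | .R i _, .R j _ => i ≠ j
  | .a i x y, .p j b z => i = j ∧ ((b = true ∧ y.val = z.val) ∨ (b = false ∧ x.val = z.val))
  | .R i b, .p j b' _ => (i = j ∧ b = b') ∨ (b = false ∧ i ≠ j ∧ i ≠ nxt j)
  | .R i b, .s j _ _ => b = false ∧ i ≠ j ∧ i ≠ nxt j
  | .p i b z, .s j b' l => i = j ∧ b = b' ∧ z.val = min l.val (m j b' - 1)
  | .s i b l, .s j b' l' => i = j ∧ b = b' ∧ l'.val = (l.val + 1) % L j b'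
  | .R _ b, .y b' => b = b'
  | .y b, .y b' => b ≠ b'
  | _, _ => False

/-- the graph -/
def gr (r : ℕ) (m L : Fin r → Bool → ℕ) (nxt : Fin r → Fin r) : SimpleGraph (Vtx r m L) :=
  SimpleGraph.fromRel (rel nxt)

theorem gr_not_col (nxt : Fin r → Fin r) (hnxt : ∀ i, nxt i ≠ i)
    (hm : ∀ i b, 1 ≤ m i b) (hL3 : ∀ i b, 3 ≤ L i b) (hL : ∀ i b, L i b % 2 = 1) :
    ¬ ∃ c : Vtx r m L → Fin (r + 1), ∀ u v, (gr r m L nxt).Adj u v → c u ≠ c v := by
  classical
  rintro ⟨c, hc0⟩
  have hc : ∀ u v, u ≠ v → rel nxt u v → c u ≠ c v := by
    intro u v hne h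
    exact hc0 u v (by rw [gr, SimpleGraph.fromRel_adj]; exact ⟨hne, Or.inl h⟩)
  have hRR : ∀ i j b b', i ≠ j → c (.R i b) ≠ c (.R j b') := by
    intro i j b b' hij
    apply hc
    · intro h; cases h; exact hij rfl
    · exact hij
  -- some part is two-coloured at its representatives
  have h1 : ∃ i, c (.R i false) ≠ c (.R i true) := by
    by_contra hcon
    push Not at hcon
    obtain ⟨σ, hσi, hσ⟩ := exists_recolor (fun i : Fin r => c (.R i false))
      (fun i : Fin r => i.castSucc)
      (by
        intro i j hij
        by_contra hne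
        exact hRR i j false false hne hij)
      (Fin.castSucc_injective r)
    have hy : ∀ b, σ (c (.y b)) = Fin.last r := by
      intro b
      by_contra hne
      obtain ⟨j, hj⟩ := Fin.exists_castSucc_eq.mpr hne
      rw [← hσ j] at hj
      have h2 : c (.R j false) = c (.y b) := hσi hj
      have h3 : c (.R j b) ≠ c (.y b) := by
        apply hc
        · intro h; cases h
        · rfl
      cases b
      · exact h3 h2
      · rw [← hcon j] at h3; exact h3 h2
    have h4 : c (.y false) ≠ c (.y true) := by
      apply hc
      · intro h; cases h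
      · show false ≠ true
        decide
    exact h4 (hσi (by rw [hy false, hy true]))
  obtain ⟨i, hi⟩ := h1
  obtain ⟨σ, hσi, hσ⟩ := exists_recolor
    (fun o : Option (Fin r) => match o with
      | none => c (.R i true)
      | some j => c (.R j false))
    (fun o : Option (Fin r) => match o with
      | none => Fin.last r
      | some j => j.castSucc)
    (by
      intro o o' h
      cases o with
      | none =>
        cases o' with
        | none => rfl
        | some j =>
          exfalso
          by_cases hij : i = j
          · subst hij; exact hi h.symm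
          · exact hRR i j true false hij h
      | some j =>
        cases o' with
        | none =>
          exfalso
          by_cases hij : i = j
          · subst hij; exact hi h
          · exact hRR i j true false hij h.symm
        | some j' =>
          by_contra hne
          exact hRR j j' false false (fun h => hne (by rw [h])) h)
    (by
      intro o o' h
      cases o with
      | none =>
        cases o' with
        | none => rfl
        | some j => exact absurd h (Fin.castSucc_lt_last j).ne'
      | some j =>
        cases o' with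
        | none => exact absurd h (Fin.castSucc_lt_last j).ne
        | some j' => exact congrArg some (Fin.castSucc_injective r h))
  have hσt : σ (c (.R i true)) = Fin.last r := hσ none
  have hσf : ∀ j, σ (c (.R j false)) = j.castSucc := fun j => hσ (some j)
  obtain ⟨d, hd⟩ : ∃ d : Vtx r m L → Fin (r + 1), d = fun v => σ (c v) := ⟨_, rfl⟩
  have hdc : ∀ u v, u ≠ v → rel nxt u v → d u ≠ d v := by
    intro u v hne h h2
    rw [hd] at h2
    exact hc u v hne h (hσi h2)
  have hdt : d (.R i true) = Fin.last r := by rw [hd]; exact hσt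
  have hdf : ∀ j, d (.R j false) = j.castSucc := by intro j; rw [hd]; exact hσf j
  -- colours different from all but few
  have hcase : ∀ (q : Fin (r + 1)), q = Fin.last r ∨ ∃ j : Fin r, q = j.castSucc := by
    intro q
    by_cases h : q = Fin.last r
    · exact Or.inl h
    · obtain ⟨j, hj⟩ := Fin.exists_castSucc_eq.mpr h
      exact Or.inr ⟨j, hj.symm⟩
  have ha : ∀ x y, d (.a i x y) = i.castSucc ∨ d (.a i x y) = Fin.last r := by
    intro x y
    rcases hcase (d (.a i x y)) with h | ⟨j, hj⟩
    · exact Or.inr h
    · by_cases hij : i = j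
      · left; rw [hj, hij]
      · exfalso
        have h2 : d (.a i x y) ≠ d (.R j false) := hdc _ _ (by intro h; cases h) hij
        rw [hdf j] at h2
        exact h2 hj
  have hp : ∀ b z, ∀ j, j ≠ i → j ≠ nxt i → d (.p i b z) ≠ j.castSucc := by
    intro b z j hji hjn
    have h2 : d (.R j false) ≠ d (.p i b z) :=
      hdc _ _ (by intro h; cases h) (Or.inr ⟨rfl, hji, hjn⟩)
    rw [hdf j] at h2
    exact h2.symm
  have hpf : ∀ z, d (.p i false z) = (nxt i).castSucc ∨ d (.p i false z) = Fin.last r := by
    intro z
    rcases hcase (d (.p i false z)) with h | ⟨j, hj⟩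
    · exact Or.inr h
    · by_cases hij : j = i
      · exfalso
        have h2 : d (.R i false) ≠ d (.p i false z) :=
          hdc _ _ (by intro h; cases h) (Or.inl ⟨rfl, rfl⟩)
        rw [hdf i, hj, hij] at h2
        exact h2 rfl
      · by_cases hjn : j = nxt i
        · left; rw [hj, hjn]
        · exact absurd hj (hp false z j hij hjn)
  have hpt : ∀ z, d (.p i true z) = (nxt i).castSucc ∨ d (.p i true z) = i.castSucc := by
    intro z
    rcases hcase (d (.p i true z)) with h | ⟨j, hj⟩
    · exfalso
      have h2 : d (.R i true) ≠ d (.p i true z) :=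
        hdc _ _ (by intro h; cases h) (Or.inl ⟨rfl, rfl⟩)
      rw [hdt, h] at h2
      exact h2 rfl
    · by_cases hij : j = i
      · right; rw [hj, hij]
      · by_cases hjn : j = nxt i
        · left; rw [hj, hjn]
        · exact absurd hj (hp true z j hij hjn)
  have hs : ∀ b l, d (.s i b l) = (nxt i).castSucc ∨ d (.s i b l) = i.castSucc ∨
      d (.s i b l) = Fin.last r := by
    intro b l
    rcases hcase (d (.s i b l)) with h | ⟨j, hj⟩
    · exact Or.inr (Or.inr h)
    · by_cases hij : j = i
      · right; left; rw [hj, hij]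
      · by_cases hjn : j = nxt i
        · left; rw [hj, hjn]
        · exfalso
          have h2 : d (.R j false) ≠ d (.s i b l) :=
            hdc _ _ (by intro h; cases h) ⟨rfl, hij, hjn⟩
          rw [hdf j] at h2
          exact h2 hj.symm
  -- some list vertex on each side is exceptional
  have hside : ∀ b, ∃ z, d (.p i b z) ≠ (nxt i).castSucc := by
    intro b
    by_contra hcon
    push Not at hcon
    have hLb := hL3 i b
    apply odd_cycle (hL i b) (fun l => if h : l < L i b then d (.s i b ⟨l, h⟩) else Fin.last r)
      i.castSucc (Fin.last r)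
    · intro l hl
      simp only [dif_pos hl]
      rcases hs b ⟨l, hl⟩ with h | h
      · exfalso
        have hlt : min l (m i b - 1) < m i b := by
          have := hm i b
          omega
        have h2 : d (.p i b ⟨min l (m i b - 1), hlt⟩) ≠ d (.s i b ⟨l, hl⟩) :=
          hdc _ _ (by intro h; cases h) ⟨rfl, rfl, rfl⟩
        rw [hcon, h] at h2
        exact h2 rfl
      · exact h
    · intro l hl
      have hl' : (l + 1) % L i b < L i b := Nat.mod_lt _ (by omega)
      simp only [dif_pos hl, dif_pos hl']
      apply hdc
      · intro h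
        have h2 : l = (l + 1) % L i b := by
          injection h with h1 h2 h3
          exact congrArg Fin.val h3
        rcases Nat.lt_or_ge (l + 1) (L i b) with h3 | h3
        · rw [Nat.mod_eq_of_lt h3] at h2; omega
        · have h4 : l + 1 = L i b := by omega
          rw [h4, Nat.mod_self] at h2; omega
      · exact ⟨rfl, rfl, rfl⟩
  obtain ⟨z0, hz0⟩ := hside false
  obtain ⟨z1, hz1⟩ := hside true
  have e0 : d (.p i false z0) = Fin.last r := by
    rcases hpf z0 with h | h
    · exact absurd h hz0
    · exact h
  have e1 : d (.p i true z1) = i.castSucc := by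
    rcases hpt z1 with h | h
    · exact absurd h hz1
    · exact h
  have k0 : d (.a i z0 z1) ≠ d (.p i false z0) :=
    hdc _ _ (by intro h; cases h) ⟨rfl, Or.inr ⟨rfl, rfl⟩⟩
  have k1 : d (.a i z0 z1) ≠ d (.p i true z1) :=
    hdc _ _ (by intro h; cases h) ⟨rfl, Or.inl ⟨rfl, rfl⟩⟩
  rcases ha z0 z1 with h | h
  · exact k1 (by rw [h, e1])
  · exact k0 (by rw [h, e0])

end Pool.Agent.Lib.MP_f053ce_co
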