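import Mathlib
import Pool.Agent.Lib.MP_f053ce_co.Construct

namespace Pool.Agent.Lib.MP_f053ce_co

open Finset

variable {r : ℕ} {m L : Fin r → Bool → ℕ}

/-- the general colouring used for vertex deleted subgraphs -/
def col (nxt : Fin r → Fin r) (i : Fin r) (ca : ℕ → Fin (r + 1)) (rt : Fin (r + 1))
    (e d : Bool → ℕ) (X X' : Bool → Fin (r + 1)) (cy : Bool → Fin (r + 1)) :
    Vtx r m L → Fin (r + 1)
  | .a j _ y => if j = i then ca y.val else j.castSucc
  | .R j b => if j = i ∧ b = true then rt else j.castSucc
  | .p j b z => if j = i then pcol (d b) (X b) (nxt j).castSucc z.val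
      else pcol 0 (Fin.last r) (nxt j).castSucc z.val
  | .s j b l => if j = i then scol (e b) (d b) (m j b) (X b) (X' b) (nxt j).castSucc l.val
      else scol 0 0 (m j b) (Fin.last r) j.castSucc (nxt j).castSucc l.val
  | .y b => cy b

theorem col_proper (nxt : Fin r → Fin r) (hnxt : ∀ i, nxt i ≠ i)
    (hm : ∀ i b, 2 ≤ m i b) (hmL : ∀ i b, m i b ≤ L i b) (hL : ∀ i b, L i b % 2 = 1)
    (w : Vtx r m L)
    (i : Fin r) (ca : ℕ → Fin (r + 1)) (rt : Fin (r + 1))
    (e d : Bool → ℕ) (X X' : Bool → Fin (r + 1)) (cy : Bool → Fin (r + 1))
    (h1 : ∀ y, ca y = i.castSucc ∨ ca y = Fin.last r)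
    (h2 : rt = i.castSucc ∨ rt = Fin.last r)
    (h3 : ∀ b, X b = i.castSucc ∨ X b = Fin.last r)
    (h4 : ∀ b, X' b = i.castSucc ∨ X' b = Fin.last r)
    (hap0 : ∀ x y z, w ≠ .a i x y → w ≠ .p i false z → x.val = z.val →
      ca y.val ≠ pcol (d false) (X false) (nxt i).castSucc z.val)
    (hap1 : ∀ x y z, w ≠ .a i x y → w ≠ .p i true z → y.val = z.val →
      ca y.val ≠ pcol (d true) (X true) (nxt i).castSucc z.val)
    (hRp0 : ∀ z, w ≠ .R i false → w ≠ .p i false z →
      i.castSucc ≠ pcol (d false) (X false) (nxt i).castSucc z.val)
    (hRp1 : ∀ z, w ≠ .R i true → w ≠ .p i true z →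
      rt ≠ pcol (d true) (X true) (nxt i).castSucc z.val)
    (hps : ∀ b z l, w ≠ .p i b z → w ≠ .s i b l → z.val = min l.val (m i b - 1) →
      pcol (d b) (X b) (nxt i).castSucc z.val ≠
        scol (e b) (d b) (m i b) (X b) (X' b) (nxt i).castSucc l.val)
    (hss : ∀ b l l', w ≠ .s i b l → w ≠ .s i b l' → l'.val = (l.val + 1) % L i b →
      scol (e b) (d b) (m i b) (X b) (X' b) (nxt i).castSucc l.val ≠
        scol (e b) (d b) (m i b) (X b) (X' b) (nxt i).castSucc l'.val)
    (hRy : ∀ b, w ≠ .y b → cy b ≠ Fin.last r → b = true ∧ cy b = i.castSucc ∧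
      (w = .R i true ∨ rt = Fin.last r))
    (hRy' : ∀ b, w ≠ .y b → cy b = Fin.last r → w = .R i true ∨ b = false ∨ rt = i.castSucc)
    (hyy : w ≠ .y false → w ≠ .y true → cy false ≠ cy true) :
    ∀ u v, u ≠ w → v ≠ w → u ≠ v → rel nxt u v →
      col nxt i ca rt e d X X' cy u ≠ col nxt i ca rt e d X X' cy v := by
  classical
  have hcs : ∀ {j k : Fin r}, j ≠ k → j.castSucc ≠ k.castSucc := fun h h' =>
    h (Fin.castSucc_injective r h')
  have hcl : ∀ (j : Fin r), j.castSucc ≠ Fin.last r := fun j => (Fin.castSucc_lt_last j).ne
  -- a colour from part i versus part j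
  have hij : ∀ (q : Fin (r + 1)), (q = i.castSucc ∨ q = Fin.last r) → ∀ j, j ≠ i →
      q ≠ j.castSucc := by
    intro q hq j hj
    rcases hq with hq | hq
    · rw [hq]; exact hcs hj.symm
    · rw [hq]; exact (hcl j).symm
  have hnl : Fin.last r ≠ (nxt i).castSucc := (hcl _).symm
  intro u v huw hvw huv hrel
  have hwu := huw.symm
  have hwv := hvw.symm
  cases u with
  | a j x y =>
    cases v with
    | a k x' y' =>
      have hjk : j ≠ k := hrel
      simp only [col]
      split_ifs with c1 c2 c2
      · exact absurd (c1.trans c2.symm) hjk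
      · exact hij _ (h1 _) k c2
      · exact (hij _ (h1 _) j c1).symm
      · exact hcs hjk
    | R k b =>
      have hjk : j ≠ k := hrel
      simp only [col]
      split_ifs with c1 c2 c2
      · exact absurd (c1.trans c2.1.symm) hjk
      · exact hij _ (h1 _) k (fun h => hjk (c1.trans h.symm))
      · exact (hij _ h2 j c1).symm
      · exact hcs hjk
    | p k b z =>
      obtain ⟨hjk, hb⟩ := hrel
      subst hjk
      simp only [col]
      by_cases hji : j = i
      · subst hji
        simp only [if_true]
        rcases hb with ⟨hb, hz⟩ | ⟨hb, hz⟩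
        · subst hb; exact hap1 x y z hwu hwv hz
        · subst hb; exact hap0 x y z hwu hwv hz
      · simp only [if_neg hji]
        rcases pcol_mem 0 (Fin.last r) (nxt j).castSucc z.val with h | h
        · rw [h]; exact hcs (hnxt j).symm
        · rw [h]; exact hcl j
    | s k b l => exact absurd hrel (by simp [rel])
    | y b => exact absurd hrel (by simp [rel])
  | R j b =>
    cases v with
    | a k x' y' => exact absurd hrel (by simp [rel])
    | R k b' =>
      have hjk : j ≠ k := hrel
      simp only [col]
      split_ifs with c1 c2 c2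
      · exact absurd (c1.1.trans c2.1.symm) hjk
      · exact hij _ h2 k (fun h => hjk (c1.1.trans h.symm))
      · exact (hij _ h2 j (fun h => hjk (h.trans c2.1.symm))).symm
      · exact hcs hjk
    | p k b' z =>
      rcases hrel with ⟨hjk, hb⟩ | ⟨hb, hjk, hjn⟩
      · subst hjk; subst hb
        simp only [col]
        by_cases hji : j = i
        · subst hji
          simp only [if_true, true_and]
          cases b
          · simpa using hRp0 z hwu hwv
          · simpa using hRp1 z hwu hwv
        · simp only [if_neg hji, hji, false_and, if_false]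
          rcases pcol_mem 0 (Fin.last r) (nxt j).castSucc z.val with h | h
          · rw [h]; exact hcs (hnxt j).symm
          · rw [h]; exact hcl j
      · subst hb
        simp only [col]
        by_cases hki : k = i
        · subst hki
          simp only [if_true]
          have : ¬ (j = k ∧ false = true) := by simp
          rw [if_neg this]
          rcases pcol_mem (d b') (X b') (nxt k).castSucc z.val with h | h
          · rw [h]; exact hcs hjn
          · rw [h]
            exact (hij _ (h3 b') j hjk).symm
        · have : ¬ (j = i ∧ false = true) := by simp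
          rw [if_neg this, if_neg hki]
          rcases pcol_mem 0 (Fin.last r) (nxt k).castSucc z.val with h | h
          · rw [h]; exact hcs hjn
          · rw [h]; exact hcl j
    | s k b' l =>
      obtain ⟨hb, hjk, hjn⟩ := hrel
      subst hb
      simp only [col]
      have : ¬ (j = i ∧ false = true) := by simp
      rw [if_neg this]
      by_cases hki : k = i
      · subst hki
        rw [if_pos rfl]
        rcases scol_mem (e b') (d b') (m k b') (X b') (X' b') (nxt k).castSucc l.val with h | h | h
        · rw [h]; exact hcs hjn
        · rw [h]; exact (hij _ (h4 b') j hjk).symm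
        · rw [h]; exact (hij _ (h3 b') j hjk).symm
      · rw [if_neg hki]
        rcases scol_mem 0 0 (m k b') (Fin.last r) k.castSucc (nxt k).castSucc l.val with h | h | h
        · rw [h]; exact hcs hjn
        · rw [h]; exact hcs hjk
        · rw [h]; exact hcl j
    | y b' =>
      have hb : b = b' := hrel
      subst hb
      simp only [col]
      by_cases hcy : cy b = Fin.last r
      · rw [hcy]
        by_cases hj : j = i ∧ b = true
        · rw [if_pos hj]
          rcases hRy' b hwv hcy with h | h | h
          · exfalso; exact hwu (by rw [h, hj.1, hj.2])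
          · exact absurd (hj.2.symm.trans h) (by decide)
          · rw [h]; exact hcl i
        · rw [if_neg hj]; exact hcl j
      · obtain ⟨hb, hcyi, hor⟩ := hRy b hwv hcy
        rw [hcyi]
        by_cases hj : j = i ∧ b = true
        · rw [if_pos hj]
          rcases hor with h | h
          · exfalso; exact hwu (by rw [h, hj.1, hj.2])
          · rw [h]; exact (hcl i).symm
        · rw [if_neg hj]
          exact hcs (fun h => hj ⟨h, hb⟩)
  | p j b z =>
    cases v with
    | a k x' y' => exact absurd hrel (by simp [rel])
    | R k b' => exact absurd hrel (by simp [rel])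
    | p k b' z' => exact absurd hrel (by simp [rel])
    | s k b' l =>
      obtain ⟨hjk, hb, hz⟩ := hrel
      subst hjk; subst hb
      simp only [col]
      by_cases hji : j = i
      · subst hji
        simp only [if_true]
        exact hps b z l hwu hwv hz
      · simp only [if_neg hji]
        rw [hz]
        exact scol_pcol1 (by have := hm j b; omega) (hcl j).symm (hcl _).symm (hcs (hnxt j).symm) _
    | y b' => exact absurd hrel (by simp [rel])
  | s j b l =>
    cases v with
    | a k x' y' => exact absurd hrel (by simp [rel])
    | R k b' => exact absurd hrel (by simp [rel])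
    | p k b' z' => exact absurd hrel (by simp [rel])
    | s k b' l' =>
      obtain ⟨hjk, hb, hz⟩ := hrel
      subst hjk; subst hb
      simp only [col]
      by_cases hji : j = i
      · subst hji
        simp only [if_true]
        exact hss b l l' hwu hwv hz
      · simp only [if_neg hji]
        rw [hz]
        exact scol_cycle1 (by have := hm j b; omega) (hm j b) (hmL j b) (hL j b) (hcl j).symm
          (hcl _).symm (hcs (hnxt j).symm) _ l.2
    | y b' => exact absurd hrel (by simp [rel])
  | y b =>
    cases v with
    | a k x' y' => exact absurd hrel (by simp [rel])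
    | R k b' => exact absurd hrel (by simp [rel])
    | p k b' z' => exact absurd hrel (by simp [rel])
    | s k b' l => exact absurd hrel (by simp [rel])
    | y b' =>
      have hb : b ≠ b' := hrel
      simp only [col]
      cases b <;> cases b'
      · exact absurd rfl hb
      · exact hyy hwu hwv
      · exact (hyy hwv hwu).symm
      · exact absurd rfl hb

end Pool.Agent.Lib.MP_f053ce_co
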