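import Mathlib
import Pool.Agent.Lib.MP_f053ce_co.Crit

namespace Pool.Agent.Lib.MP_f053ce_co

open Finset

variable {r : ℕ} {m L : Fin r → Bool → ℕ}

theorem gr_crit (nxt : Fin r → Fin r) (hnxt : ∀ i, nxt i ≠ i) (i0 : Fin r)
    (hm : ∀ i b, 2 ≤ m i b) (hmL : ∀ i b, m i b ≤ L i b) (hL : ∀ i b, L i b % 2 = 1)
    (w : Vtx r m L) :
    ∃ c : Vtx r m L → Fin (r + 1), ∀ u v, u ≠ w → v ≠ w → (gr r m L nxt).Adj u v →
      c u ≠ c v := by
  classical
  suffices h : ∃ c : Vtx r m L → Fin (r + 1), ∀ u v, u ≠ w → v ≠ w → u ≠ v → rel nxt u v →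
      c u ≠ c v by
    obtain ⟨c, hc⟩ := h
    refine ⟨c, fun u v hu hv huv => ?_⟩
    rw [gr, SimpleGraph.fromRel_adj] at huv
    obtain ⟨hne, h | h⟩ := huv
    · exact hc u v hu hv hne h
    · exact (hc v u hv hu hne.symm h).symm
  have hcl : ∀ (j : Fin r), j.castSucc ≠ Fin.last r := fun j => (Fin.castSucc_lt_last j).ne
  have hcn : ∀ (j : Fin r), j.castSucc ≠ (nxt j).castSucc := fun j h =>
    hnxt j (Fin.castSucc_injective r h).symm
  -- properties of `pcol`
  have pI : ∀ (i : Fin r) (d z : ℕ), i.castSucc ≠ pcol d (Fin.last r) (nxt i).castSucc z := by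
    intro i d z
    rcases pcol_mem d (Fin.last r) (nxt i).castSucc z with h | h
    · rw [h]; exact hcn i
    · rw [h]; exact hcl i
  have pL : ∀ (i : Fin r) (d z : ℕ), Fin.last r ≠ pcol d i.castSucc (nxt i).castSucc z := by
    intro i d z
    rcases pcol_mem d i.castSucc (nxt i).castSucc z with h | h
    · rw [h]; exact (hcl _).symm
    · rw [h]; exact (hcl _).symm
  have pLn : ∀ (i : Fin r) (d z : ℕ) (X : Fin (r + 1)), z ≠ d →
      Fin.last r ≠ pcol d X (nxt i).castSucc z := by
    intro i d z X hz
    rw [pcol, if_neg hz]; exact (hcl _).symm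
  have pIn : ∀ (i : Fin r) (d z : ℕ) (X : Fin (r + 1)), z ≠ d →
      i.castSucc ≠ pcol d X (nxt i).castSucc z := by
    intro i d z X hz
    rw [pcol, if_neg hz]; exact hcn i
  have hm1 : ∀ i b, 0 < m i b := fun i b => by have := hm i b; omega
  -- side facts
  have PS : ∀ (i : Fin r) (b : Bool) (d : ℕ) (X X' : Fin (r + 1)), d < m i b →
      (X = i.castSucc ∧ X' = Fin.last r ∨ X = Fin.last r ∧ X' = i.castSucc) →
      ∀ z l : ℕ, z = min l (m i b - 1) →
      pcol d X (nxt i).castSucc z ≠ scol d d (m i b) X X' (nxt i).castSucc l := by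
    intro i b d X X' hd hX z l hz
    rw [hz]
    rcases hX with ⟨rfl, rfl⟩ | ⟨rfl, rfl⟩
    · exact scol_pcol1 hd (hcl i) (hcn i) (hcl _).symm _
    · exact scol_pcol1 hd (hcl i).symm (hcl _).symm (hcn i) _
  have SS : ∀ (i : Fin r) (b : Bool) (d : ℕ) (X X' : Fin (r + 1)), d < m i b →
      (X = i.castSucc ∧ X' = Fin.last r ∨ X = Fin.last r ∧ X' = i.castSucc) →
      ∀ l l' : ℕ, l < L i b → l' = (l + 1) % L i b →
      scol d d (m i b) X X' (nxt i).castSucc l ≠ scol d d (m i b) X X' (nxt i).castSucc l' := by
    intro i b d X X' hd hX l l' hl hl'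
    rw [hl']
    rcases hX with ⟨rfl, rfl⟩ | ⟨rfl, rfl⟩
    · exact scol_cycle1 hd (hm i b) (hmL i b) (hL i b) (hcl i) (hcn i) (hcl _).symm l hl
    · exact scol_cycle1 hd (hm i b) (hmL i b) (hL i b) (hcl i).symm (hcl _).symm (hcn i) l hl
  have PS2 : ∀ (i : Fin r) (b : Bool) (e : ℕ) (X X' : Fin (r + 1)),
      (X = i.castSucc ∧ X' = Fin.last r ∨ X = Fin.last r ∧ X' = i.castSucc) →
      ∀ z l : ℕ, z = min l (m i b - 1) → l ≠ e →
      pcol (m i b) X (nxt i).castSucc z ≠ scol e (m i b) (m i b) X X' (nxt i).castSucc l := by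
    intro i b e X X' hX z l hz hle
    rw [hz]
    rcases hX with ⟨rfl, rfl⟩ | ⟨rfl, rfl⟩
    · exact scol_pcol2 (hm i b) (hcn i) (hcl _).symm _ hle
    · exact scol_pcol2 (hm i b) (hcl _).symm (hcn i) _ hle
  have SS2 : ∀ (i : Fin r) (b : Bool) (e : ℕ) (X X' : Fin (r + 1)), e < L i b →
      (X = i.castSucc ∧ X' = Fin.last r ∨ X = Fin.last r ∧ X' = i.castSucc) →
      ∀ l l' : ℕ, l < L i b → l' = (l + 1) % L i b → l ≠ e → l' ≠ e →
      scol e (m i b) (m i b) X X' (nxt i).castSucc l ≠
        scol e (m i b) (m i b) X X' (nxt i).castSucc l' := by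
    intro i b e X X' he hX l l' hl hl' hle hle'
    rw [hl'] at hle' ⊢
    rcases hX with ⟨rfl, rfl⟩ | ⟨rfl, rfl⟩
    · exact scol_cycle2 he (hm i b) (hL i b) (hcl i) l hl hle hle'
    · exact scol_cycle2 he (hm i b) (hL i b) (hcl i).symm l hl hle hle'
  cases w with
  | a i x0 y0 =>
    refine ⟨_, col_proper nxt hnxt hm hmL hL _ i
      (fun y => if y = y0.val then Fin.last r else i.castSucc) (Fin.last r)
      (fun b => if b then y0.val else x0.val) (fun b => if b then y0.val else x0.val)
      (fun b => if b then i.castSucc else Fin.last r)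
      (fun b => if b then Fin.last r else i.castSucc)
      (fun b => if b then i.castSucc else Fin.last r) ?_ ?_ ?_ ?_ ?_ ?_ ?_ ?_ ?_ ?_ ?_ ?_ ?_⟩
    · intro y; by_cases h : y = y0.val <;> simp [h]
    · exact Or.inr rfl
    · intro b; cases b <;> simp
    · intro b; cases b <;> simp
    · intro x y z hw _ hxz
      simp only [if_false, Bool.false_eq_true]
      by_cases hy : y.val = y0.val
      · rw [if_pos hy]
        apply pLn
        intro h
        apply hw
        have e1 : x0 = x := Fin.ext (by omega)
        have e2 : y0 = y := Fin.ext (by omega)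
        rw [e1, e2]
      · rw [if_neg hy]; exact pI _ _ _
    · intro x y z _ _ hyz
      simp only [if_true]
      by_cases hy : y.val = y0.val
      · rw [if_pos hy]; exact pL _ _ _
      · rw [if_neg hy]; exact pIn _ _ _ _ (by omega)
    · intro z _ _; exact pI _ _ _
    · intro z _ _; exact pL _ _ _
    · intro b z l _ _ hz
      cases b
      · exact PS i false _ _ _ x0.2 (Or.inr ⟨rfl, rfl⟩) _ _ hz
      · exact PS i true _ _ _ y0.2 (Or.inl ⟨rfl, rfl⟩) _ _ hz
    · intro b l l' _ _ hl'
      cases b
      · exact SS i false _ _ _ x0.2 (Or.inr ⟨rfl, rfl⟩) _ _ l.2 hl'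
      · exact SS i true _ _ _ y0.2 (Or.inl ⟨rfl, rfl⟩) _ _ l.2 hl'
    · intro b _ hcy
      cases b
      · simp at hcy
      · exact ⟨rfl, rfl, Or.inr rfl⟩
    · intro b _ hcy
      cases b
      · exact Or.inr (Or.inl rfl)
      · simp only [if_true] at hcy
        exact absurd hcy (hcl i)
    · intro _ _
      simp only [if_true, if_false, Bool.false_eq_true]
      exact (hcl i).symm
  | R i b0 =>
    cases b0 with
    | false =>
      refine ⟨_, col_proper nxt hnxt hm hmL hL _ i
        (fun _ => Fin.last r) (Fin.last r)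
        (fun _ => 0) (fun _ => 0)
        (fun _ => i.castSucc) (fun _ => Fin.last r)
        (fun b => if b then i.castSucc else Fin.last r) ?_ ?_ ?_ ?_ ?_ ?_ ?_ ?_ ?_ ?_ ?_ ?_ ?_⟩
      · intro y; exact Or.inr rfl
      · exact Or.inr rfl
      · intro b; exact Or.inl rfl
      · intro b; exact Or.inr rfl
      · intro x y z _ _ _; exact pL _ _ _
      · intro x y z _ _ _; exact pL _ _ _
      · intro z h _; exact absurd rfl h
      · intro z _ _; exact pL _ _ _
      · intro b z l _ _ hz
        exact PS i b _ _ _ (hm1 i b) (Or.inl ⟨rfl, rfl⟩) _ _ hz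
      · intro b l l' _ _ hl'
        exact SS i b _ _ _ (hm1 i b) (Or.inl ⟨rfl, rfl⟩) _ _ l.2 hl'
      · intro b _ hcy
        cases b
        · simp at hcy
        · exact ⟨rfl, rfl, Or.inr rfl⟩
      · intro b _ hcy
        cases b
        · exact Or.inr (Or.inl rfl)
        · simp only [if_true] at hcy
          exact absurd hcy (hcl i)
      · intro _ _
        simp only [if_true, if_false, Bool.false_eq_true]
        exact (hcl i).symm
    | true =>
      refine ⟨_, col_proper nxt hnxt hm hmL hL _ i
        (fun _ => i.castSucc) (i.castSucc)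
        (fun _ => 0) (fun _ => 0)
        (fun _ => Fin.last r) (fun _ => i.castSucc)
        (fun b => if b then i.castSucc else Fin.last r) ?_ ?_ ?_ ?_ ?_ ?_ ?_ ?_ ?_ ?_ ?_ ?_ ?_⟩
      · intro y; exact Or.inl rfl
      · exact Or.inl rfl
      · intro b; exact Or.inr rfl
      · intro b; exact Or.inl rfl
      · intro x y z _ _ _; exact pI _ _ _
      · intro x y z _ _ _; exact pI _ _ _
      · intro z _ _; exact pI _ _ _
      · intro z h _; exact absurd rfl h
      · intro b z l _ _ hz
        exact PS i b _ _ _ (hm1 i b) (Or.inr ⟨rfl, rfl⟩) _ _ hz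
      · intro b l l' _ _ hl'
        exact SS i b _ _ _ (hm1 i b) (Or.inr ⟨rfl, rfl⟩) _ _ l.2 hl'
      · intro b _ hcy
        cases b
        · simp at hcy
        · exact ⟨rfl, rfl, Or.inl rfl⟩
      · intro b _ hcy
        cases b
        · exact Or.inr (Or.inl rfl)
        · simp only [if_true] at hcy
          exact absurd hcy (hcl i)
      · intro _ _
        simp only [if_true, if_false, Bool.false_eq_true]
        exact (hcl i).symm
  | p i b0 z0 =>
    cases b0 with
    | false =>
      refine ⟨_, col_proper nxt hnxt hm hmL hL _ i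
        (fun _ => Fin.last r) (Fin.last r)
        (fun b => if b then 0 else z0.val) (fun b => if b then 0 else z0.val)
        (fun b => if b then i.castSucc else Fin.last r)
        (fun b => if b then Fin.last r else i.castSucc)
        (fun b => if b then i.castSucc else Fin.last r) ?_ ?_ ?_ ?_ ?_ ?_ ?_ ?_ ?_ ?_ ?_ ?_ ?_⟩
      · intro y; exact Or.inr rfl
      · exact Or.inr rfl
      · intro b; cases b <;> simp
      · intro b; cases b <;> simp
      · intro x y z _ hw _
        apply pLn
        intro h
        apply hw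
        have : z0 = z := Fin.ext h.symm
        rw [this]
      · intro x y z _ _ _; exact pL _ _ _
      · intro z _ _; exact pI _ _ _
      · intro z _ _; exact pL _ _ _
      · intro b z l _ _ hz
        cases b
        · exact PS i false _ _ _ z0.2 (Or.inr ⟨rfl, rfl⟩) _ _ hz
        · exact PS i true _ _ _ (hm1 i true) (Or.inl ⟨rfl, rfl⟩) _ _ hz
      · intro b l l' _ _ hl'
        cases b
        · exact SS i false _ _ _ z0.2 (Or.inr ⟨rfl, rfl⟩) _ _ l.2 hl'
        · exact SS i true _ _ _ (hm1 i true) (Or.inl ⟨rfl, rfl⟩) _ _ l.2 hl'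
      · intro b _ hcy
        cases b
        · simp at hcy
        · exact ⟨rfl, rfl, Or.inr rfl⟩
      · intro b _ hcy
        cases b
        · exact Or.inr (Or.inl rfl)
        · simp only [if_true] at hcy
          exact absurd hcy (hcl i)
      · intro _ _
        simp only [if_true, if_false, Bool.false_eq_true]
        exact (hcl i).symm
    | true =>
      refine ⟨_, col_proper nxt hnxt hm hmL hL _ i
        (fun _ => i.castSucc) (Fin.last r)
        (fun b => if b then z0.val else 0) (fun b => if b then z0.val else 0)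
        (fun b => if b then i.castSucc else Fin.last r)
        (fun b => if b then Fin.last r else i.castSucc)
        (fun b => if b then i.castSucc else Fin.last r) ?_ ?_ ?_ ?_ ?_ ?_ ?_ ?_ ?_ ?_ ?_ ?_ ?_⟩
      · intro y; exact Or.inl rfl
      · exact Or.inr rfl
      · intro b; cases b <;> simp
      · intro b; cases b <;> simp
      · intro x y z _ _ _; exact pI _ _ _
      · intro x y z _ hw _
        apply pIn
        intro h
        apply hw
        have : z0 = z := Fin.ext h.symm
        rw [this]
      · intro z _ _; exact pI _ _ _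
      · intro z _ _; exact pL _ _ _
      · intro b z l _ _ hz
        cases b
        · exact PS i false _ _ _ (hm1 i false) (Or.inr ⟨rfl, rfl⟩) _ _ hz
        · exact PS i true _ _ _ z0.2 (Or.inl ⟨rfl, rfl⟩) _ _ hz
      · intro b l l' _ _ hl'
        cases b
        · exact SS i false _ _ _ (hm1 i false) (Or.inr ⟨rfl, rfl⟩) _ _ l.2 hl'
        · exact SS i true _ _ _ z0.2 (Or.inl ⟨rfl, rfl⟩) _ _ l.2 hl'
      · intro b _ hcy
        cases b
        · simp at hcy
        · exact ⟨rfl, rfl, Or.inr rfl⟩
      · intro b _ hcy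
        cases b
        · exact Or.inr (Or.inl rfl)
        · simp only [if_true] at hcy
          exact absurd hcy (hcl i)
      · intro _ _
        simp only [if_true, if_false, Bool.false_eq_true]
        exact (hcl i).symm
  | s i b0 l0 =>
    cases b0 with
    | false =>
      refine ⟨_, col_proper nxt hnxt hm hmL hL _ i
        (fun _ => Fin.last r) (Fin.last r)
        (fun b => if b then 0 else l0.val) (fun b => if b then 0 else m i false)
        (fun b => if b then i.castSucc else Fin.last r)
        (fun b => if b then Fin.last r else i.castSucc)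
        (fun b => if b then i.castSucc else Fin.last r) ?_ ?_ ?_ ?_ ?_ ?_ ?_ ?_ ?_ ?_ ?_ ?_ ?_⟩
      · intro y; exact Or.inr rfl
      · exact Or.inr rfl
      · intro b; cases b <;> simp
      · intro b; cases b <;> simp
      · intro x y z _ hw _
        apply pLn
        have := z.2
        simp only [if_false, Bool.false_eq_true]
        omega
      · intro x y z _ _ _; exact pL _ _ _
      · intro z _ _; exact pI _ _ _
      · intro z _ _; exact pL _ _ _
      · intro b z l _ hw hz
        cases b
        · exact PS2 i false _ _ _ (Or.inr ⟨rfl, rfl⟩) _ _ hz (fun h => hw (by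
            have : l0 = l := Fin.ext h.symm
            rw [this]))
        · exact PS i true _ _ _ (hm1 i true) (Or.inl ⟨rfl, rfl⟩) _ _ hz
      · intro b l l' hw hw' hl'
        cases b
        · exact SS2 i false _ _ _ l0.2 (Or.inr ⟨rfl, rfl⟩) _ _ l.2 hl'
            (fun h => hw (by
              have : l0 = l := Fin.ext h.symm
              rw [this]))
            (fun h => hw' (by
              have : l0 = l' := Fin.ext h.symm
              rw [this]))
        · exact SS i true _ _ _ (hm1 i true) (Or.inl ⟨rfl, rfl⟩) _ _ l.2 hl'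
      · intro b _ hcy
        cases b
        · simp at hcy
        · exact ⟨rfl, rfl, Or.inr rfl⟩
      · intro b _ hcy
        cases b
        · exact Or.inr (Or.inl rfl)
        · simp only [if_true] at hcy
          exact absurd hcy (hcl i)
      · intro _ _
        simp only [if_true, if_false, Bool.false_eq_true]
        exact (hcl i).symm
    | true =>
      refine ⟨_, col_proper nxt hnxt hm hmL hL _ i
        (fun _ => i.castSucc) (Fin.last r)
        (fun b => if b then l0.val else 0) (fun b => if b then m i true else 0)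
        (fun b => if b then i.castSucc else Fin.last r)
        (fun b => if b then Fin.last r else i.castSucc)
        (fun b => if b then i.castSucc else Fin.last r) ?_ ?_ ?_ ?_ ?_ ?_ ?_ ?_ ?_ ?_ ?_ ?_ ?_⟩
      · intro y; exact Or.inl rfl
      · exact Or.inr rfl
      · intro b; cases b <;> simp
      · intro b; cases b <;> simp
      · intro x y z _ _ _; exact pI _ _ _
      · intro x y z _ hw _
        apply pIn
        have := z.2
        simp only [if_true]
        omega
      · intro z _ _; exact pI _ _ _
      · intro z _ _; exact pL _ _ _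
      · intro b z l _ hw hz
        cases b
        · exact PS i false _ _ _ (hm1 i false) (Or.inr ⟨rfl, rfl⟩) _ _ hz
        · exact PS2 i true _ _ _ (Or.inl ⟨rfl, rfl⟩) _ _ hz (fun h => hw (by
            have : l0 = l := Fin.ext h.symm
            rw [this]))
      · intro b l l' hw hw' hl'
        cases b
        · exact SS i false _ _ _ (hm1 i false) (Or.inr ⟨rfl, rfl⟩) _ _ l.2 hl'
        · exact SS2 i true _ _ _ l0.2 (Or.inl ⟨rfl, rfl⟩) _ _ l.2 hl'
            (fun h => hw (by
              have : l0 = l := Fin.ext h.symm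
              rw [this]))
            (fun h => hw' (by
              have : l0 = l' := Fin.ext h.symm
              rw [this]))
      · intro b _ hcy
        cases b
        · simp at hcy
        · exact ⟨rfl, rfl, Or.inr rfl⟩
      · intro b _ hcy
        cases b
        · exact Or.inr (Or.inl rfl)
        · simp only [if_true] at hcy
          exact absurd hcy (hcl i)
      · intro _ _
        simp only [if_true, if_false, Bool.false_eq_true]
        exact (hcl i).symm
  | y b0 =>
    refine ⟨_, col_proper nxt hnxt hm hmL hL _ i0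
      (fun _ => i0.castSucc) (i0.castSucc)
      (fun _ => 0) (fun _ => 0)
      (fun _ => Fin.last r) (fun _ => i0.castSucc)
      (fun _ => Fin.last r) ?_ ?_ ?_ ?_ ?_ ?_ ?_ ?_ ?_ ?_ ?_ ?_ ?_⟩
    · intro y; exact Or.inl rfl
    · exact Or.inl rfl
    · intro b; exact Or.inr rfl
    · intro b; exact Or.inl rfl
    · intro x y z _ _ _; exact pI _ _ _
    · intro x y z _ _ _; exact pI _ _ _
    · intro z _ _; exact pI _ _ _
    · intro z _ _; exact pI _ _ _
    · intro b z l _ _ hz
      exact PS i0 b _ _ _ (hm1 i0 b) (Or.inr ⟨rfl, rfl⟩) _ _ hz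
    · intro b l l' _ _ hl'
      exact SS i0 b _ _ _ (hm1 i0 b) (Or.inr ⟨rfl, rfl⟩) _ _ l.2 hl'
    · intro b _ hcy
      exact absurd rfl hcy
    · intro b _ _
      exact Or.inr (Or.inr rfl)
    · intro h1 h2
      cases b0
      · exact absurd rfl h1
      · exact absurd rfl h2

end Pool.Agent.Lib.MP_f053ce_co
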