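import Mathlib
import Pool.Agent.Lib.MP_f053ce_co.Crit2
import Pool.Agent.Lib.MP_f053ce_co.Bridge

namespace Pool.Agent.Lib.MP_f053ce_co

open Finset

variable {r : ℕ} {m L : Fin r → Bool → ℕ}

/-- the vertex type as a sum type -/
def vtxEquiv : Vtx r m L ≃ (Σ i : Fin r, Fin (m i false) × Fin (m i true)) ⊕ (Fin r × Bool) ⊕
    (Σ i : Fin r, Σ b : Bool, Fin (m i b)) ⊕ (Σ i : Fin r, Σ b : Bool, Fin (L i b)) ⊕ Bool where
  toFun
    | .a i x y => Sum.inl ⟨i, x, y⟩
    | .R i b => Sum.inr (Sum.inl (i, b))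
    | .p i b z => Sum.inr (Sum.inr (Sum.inl ⟨i, b, z⟩))
    | .s i b l => Sum.inr (Sum.inr (Sum.inr (Sum.inl ⟨i, b, l⟩)))
    | .y b => Sum.inr (Sum.inr (Sum.inr (Sum.inr b)))
  invFun
    | Sum.inl ⟨i, x, y⟩ => .a i x y
    | Sum.inr (Sum.inl (i, b)) => .R i b
    | Sum.inr (Sum.inr (Sum.inl ⟨i, b, z⟩)) => .p i b z
    | Sum.inr (Sum.inr (Sum.inr (Sum.inl ⟨i, b, l⟩))) => .s i b l
    | Sum.inr (Sum.inr (Sum.inr (Sum.inr b))) => .y b
  left_inv v := by cases v <;> rfl
  right_inv v := by
    rcases v with ⟨i, x, y⟩ | ⟨i, b⟩ | ⟨i, b, z⟩ | ⟨i, b, l⟩ | b <;> rfl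

noncomputable instance : Fintype (Vtx r m L) := Fintype.ofEquiv _ vtxEquiv.symm

theorem card_vtx : Fintype.card (Vtx r m L) =
    ∑ i : Fin r, (m i false * m i true + 2 + (m i true + m i false) + (L i true + L i false))
      + 2 := by
  rw [Fintype.card_congr vtxEquiv]
  simp only [Fintype.card_sum, Fintype.card_sigma, Fintype.card_prod, Fintype.card_fin,
    Fintype.card_bool, Fintype.sum_bool, Finset.sum_add_distrib, Finset.sum_const,
    Finset.card_univ, smul_eq_mul]
  ring

/-- lower bound for the degree sum -/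
theorem degree_sum_lower (nxt : Fin r → Fin r) (M : ℕ) (hM : ∀ i b, M ≤ m i b)
    [DecidableRel (gr r m L nxt).Adj] :
    r * (M * M) * ((r - 1) * (M * M)) ≤ ∑ v : Vtx r m L, (gr r m L nxt).degree v := by
  classical
  set φ : Fin r × Fin M × Fin M → Vtx r m L := fun q =>
    .a q.1 (Fin.castLE (hM q.1 false) q.2.1) (Fin.castLE (hM q.1 true) q.2.2) with hφ
  have hinj : Function.Injective φ := by
    rintro ⟨i, x, y⟩ ⟨j, x', y'⟩ h
    simp only [hφ] at h
    injection h with h1 h2 h3
    subst h1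
    have e1 : x = x' := by
      have := eq_of_heq h2
      exact Fin.castLE_injective _ this
    have e2 : y = y' := by
      have := eq_of_heq h3
      exact Fin.castLE_injective _ this
    rw [e1, e2]
  have hdeg : ∀ q, (r - 1) * (M * M) ≤ (gr r m L nxt).degree (φ q) := by
    intro q
    rw [← SimpleGraph.card_neighborFinset_eq_degree]
    have h1 : (((univ : Finset (Fin r)).erase q.1) ×ˢ (univ : Finset (Fin M × Fin M))).card
        = (r - 1) * (M * M) := by
      rw [Finset.card_product, Finset.card_erase_of_mem (Finset.mem_univ _)]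
      simp
    rw [← h1]
    apply Finset.card_le_card_of_injOn φ
    · intro q' hq'
      have hne : q'.1 ≠ q.1 := by
        have := (Finset.mem_product.mp (Finset.mem_coe.mp hq')).1
        exact (Finset.mem_erase.mp this).1
      rw [Finset.mem_coe, SimpleGraph.mem_neighborFinset, gr, SimpleGraph.fromRel_adj]
      refine ⟨?_, Or.inl ?_⟩
      · intro h
        exact hne (by rw [hinj h])
      · exact hne.symm
    · exact hinj.injOn
  calc r * (M * M) * ((r - 1) * (M * M))
      = ∑ q : Fin r × Fin M × Fin M, (r - 1) * (M * M) := by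
        rw [Finset.sum_const, Finset.card_univ]
        simp [Fintype.card_prod]
    _ ≤ ∑ q : Fin r × Fin M × Fin M, (gr r m L nxt).degree (φ q) :=
        Finset.sum_le_sum (fun q _ => hdeg q)
    _ = ∑ v ∈ (univ : Finset (Fin r × Fin M × Fin M)).image φ, (gr r m L nxt).degree v := by
        rw [Finset.sum_image (fun a _ b _ h => hinj h)]
    _ ≤ ∑ v : Vtx r m L, (gr r m L nxt).degree v :=
        Finset.sum_le_sum_of_subset (Finset.subset_univ _)

/-- transport of a critical graph to `Fin n` -/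
theorem transport {V : Type*} [Fintype V] (G : SimpleGraph V) [DecidableRel G.Adj] (r n : ℕ)
    (hcard : Fintype.card V = n)
    (hn : ¬ ∃ c : V → Fin (r + 1), ∀ u v, G.Adj u v → c u ≠ c v)
    (hx : ∀ x, ∃ c : V → Fin (r + 1), ∀ u v, u ≠ x → v ≠ x → G.Adj u v → c u ≠ c v) :
    ∃ H : SimpleGraph (Fin n), IsCritical (r + 2) H ∧
      2 * H.edgeSet.ncard = ∑ v : V, G.degree v := by
  classical
  obtain ⟨e⟩ : Nonempty (V ≃ Fin n) := ⟨Fintype.equivFinOfCardEq hcard⟩
  refine ⟨G.comap e.symm, ?_, ?_⟩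
  · rw [isCritical_iff]
    constructor
    · rintro ⟨c, hc⟩
      apply hn
      refine ⟨fun v => c (e v), fun u v huv => hc (e u) (e v) ?_⟩
      simpa using huv
    · intro x
      obtain ⟨c, hc⟩ := hx (e.symm x)
      refine ⟨fun v => c (e.symm v), fun u v hu hv huv => ?_⟩
      apply hc
      · intro h; exact hu (e.symm.injective h)
      · intro h; exact hv (e.symm.injective h)
      · simpa using huv
  · rw [SimpleGraph.sum_degrees_eq_twice_card_edges]
    congr 1
    have iso : G.comap e.symm ≃g G := SimpleGraph.Iso.comap e.symm G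
    have h1 : (G.comap e.symm).edgeSet.ncard = (G.comap e.symm).edgeFinset.card := by
      rw [← SimpleGraph.coe_edgeFinset, Set.ncard_coe_finset]
    rw [h1]
    exact SimpleGraph.Iso.card_edgeFinset_eq iso

end Pool.Agent.Lib.MP_f053ce_co
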