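import Mathlib

namespace Pool.Agent.Lib.MP_f053ce_co

/-- numeric core of fact 1 -/
theorem num1 (n R B : ℝ) (hR2 : 2 ≤ R) (hn : 4 * (R + 3) < n) (hBR : B * (R + 1) = 1 / 4)
    (h : (R + 1) * ((1 - 1 / R - B) * n) ≤ (R - 1) * n + (R + 3)) : False := by
  have hR0 : (0 : ℝ) < R := by linarith
  have hRR : R * (1 / R) = 1 := by field_simp
  have hRinv : 1 / R ≤ 1 / 2 := by
    rw [div_le_div_iff₀ hR0 (by norm_num)]; linarith
  have e : (R + 1) * ((1 - 1 / R - B) * n)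
      = (R - 1) * n + (1 - 1 / R) * n - (1 / 4) * n := by
    have : (R + 1) * ((1 - 1 / R - B) * n)
      = (R - R * (1 / R) + 1 - 1 / R - B * (R + 1)) * n := by ring
    rw [this, hRR, hBR]; ring
  rw [e] at h
  have h4 : (1 / 2) * n ≤ (1 - 1 / R) * n := by
    apply mul_le_mul_of_nonneg_right _ (by linarith)
    linarith
  linarith

/-- numeric core of fact 2 -/
theorem num2 (n q R B y D : ℝ) (hR2 : 2 ≤ R) (hqq : q * q = n) (hq : 0 < q)
    (hB0 : 0 < B) (hB1 : B ≤ 1 / 12) (hBq : 16 ≤ B ^ 2 * q)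
    (hy1 : B / 2 * q ≤ y) (hy2 : y ≤ B / 2 * q + 1)
    (hD : (1 - 1 / R) * n ^ 2 - B ^ 2 / 8 * n * q < D)
    (h : D ≤ y * ((1 - 1 / R - B) * n) +
      ((n - y) * ((R - 1) * n + 2) / R + y ^ 2 / 4 * (1 - 1 / R))) : False := by
  have hR0 : (0 : ℝ) < R := by linarith
  have hRinv : 1 / R ≤ 1 / 2 := by
    rw [div_le_div_iff₀ hR0 (by norm_num)]; linarith
  have hRinv0 : 0 < 1 / R := by positivity
  have hn0 : 0 < n := by rw [← hqq]; positivity
  have hBq1 : 1 ≤ B * q := by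
    have : B ^ 2 * q = B * (B * q) := by ring
    have h2 : B * (B * q) ≤ 1 * (B * q) := by
      apply mul_le_mul_of_nonneg_right (by linarith) (by positivity)
    linarith
  have hy0 : 0 ≤ y := by
    have : 0 < B / 2 * q := by positivity
    linarith
  have h4 : (n - y) * ((R - 1) * n + 2) / R = (n - y) * ((1 - 1 / R) * n + 2 * (1 / R)) := by
    field_simp
  rw [h4] at h
  have h5 : y ^ 2 / 4 * (1 - 1 / R) ≤ y ^ 2 / 4 * 1 := by
    apply mul_le_mul_of_nonneg_left (by linarith) (by positivity)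
  have hq1 : 1 ≤ q := by
    by_contra hc
    push Not at hc
    have : B * q < 1 * 1 := by
      apply mul_lt_mul'' <;> linarith
    linarith
  have h6 : y ≤ 2 * (B * n) := by
    have e : B * n = B * q * q := by rw [← hqq]; ring
    have e2 : B * q * 1 ≤ B * q * q := mul_le_mul_of_nonneg_left hq1 (by positivity)
    linarith
  have h7 : y * y ≤ y * (2 * (B * n)) := mul_le_mul_of_nonneg_left h6 hy0
  have h8 : (n - y) * (2 * (1 / R)) ≤ n * 1 := by
    have h81 : (n - y) * (2 * (1 / R)) ≤ n * (2 * (1 / R)) :=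
      mul_le_mul_of_nonneg_right (by linarith) (by positivity)
    have h82 : n * (2 * (1 / R)) ≤ n * 1 := mul_le_mul_of_nonneg_left (by linarith) hn0.le
    linarith
  have h9 : B * n * (B / 2 * q) ≤ B * n * y := mul_le_mul_of_nonneg_left hy1 (by positivity)
  have e3 : (n - y) * ((1 - 1 / R) * n + 2 * (1 / R))
    = (1 - 1 / R) * n ^ 2 - y * (1 - 1 / R) * n + (n - y) * (2 * (1 / R)) := by ring
  have e4 : y * ((1 - 1 / R - B) * n) = y * (1 - 1 / R) * n - B * n * y := by ring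
  have e5 : B * n * (B / 2 * q) = B ^ 2 / 2 * n * q := by ring
  have e6 : y * (2 * (B * n)) = 2 * (B * n * y) := by ring
  have e7 : y ^ 2 / 4 * 1 = y * y / 4 := by ring
  have h10 : 0 < n - B ^ 2 / 8 * n * q := by linarith
  have h11 : n * 16 ≤ n * (B ^ 2 * q) := mul_le_mul_of_nonneg_left hBq hn0.le
  have e8 : n * (B ^ 2 * q) = 8 * (B ^ 2 / 8 * n * q) := by ring
  linarith

/-- numeric core of fact 3 -/
theorem num3 (n q R B y D : ℝ) (hR2 : 2 ≤ R) (hqq : q * q = n) (hq : 0 < q)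
    (hB0 : 0 < B) (hB1 : B ≤ 1 / 12) (hBR : B * (R + 1) = 1 / 4) (hBq : 16 ≤ B ^ 2 * q)
    (hy0 : 0 ≤ y) (hy : y ≤ B / 2 * q)
    (hD : (1 - 1 / R) * n ^ 2 - B ^ 2 / 8 * n * q < D)
    (h : D ≤ y * ((1 - 1 / R - B) * n) +
      ((n - y) * ((R - 1) * n - B * q) / R + (B * q + y) ^ 2 / 4 * (1 - 1 / R))) : False := by
  have hR0 : (0 : ℝ) < R := by linarith
  have hRinv : 1 / R ≤ 1 / 2 := by
    rw [div_le_div_iff₀ hR0 (by norm_num)]; linarith
  have hRinv0 : 0 < 1 / R := by positivity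
  have hn0 : 0 < n := by rw [← hqq]; positivity
  have hBq1 : 1 ≤ B * q := by
    have : B ^ 2 * q = B * (B * q) := by ring
    have h2 : B * (B * q) ≤ 1 * (B * q) := by
      apply mul_le_mul_of_nonneg_right (by linarith) (by positivity)
    linarith
  have hq1 : 1 ≤ q := by
    by_contra hc
    push Not at hc
    have : B * q < 1 * 1 := by
      apply mul_lt_mul'' <;> linarith
    linarith
  have h4 : (n - y) * ((R - 1) * n - B * q) / R
      = (n - y) * ((1 - 1 / R) * n) - (n - y) * (B * q) * (1 / R) := by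
    field_simp
  rw [h4] at h
  have h5 : (B * q + y) ^ 2 / 4 * (1 - 1 / R) ≤ (B * q + y) ^ 2 / 4 * 1 := by
    apply mul_le_mul_of_nonneg_left (by linarith) (by positivity)
  have h61 : B * q + y ≤ 2 * (B * q) := by linarith
  have h62 : (B * q + y) ^ 2 ≤ (2 * (B * q)) ^ 2 :=
    pow_le_pow_left₀ (by positivity) h61 2
  have h63 : (2 * (B * q)) ^ 2 = 4 * (B ^ 2 * n) := by rw [← hqq]; ring
  have hBqn : B * q ≤ n := by
    rw [← hqq]
    exact mul_le_mul_of_nonneg_right (by linarith) hq.le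
  have h7 : n / 2 ≤ n - y := by linarith
  have h8 : n / 2 * (B * q) * (1 / R) ≤ (n - y) * (B * q) * (1 / R) := by
    apply mul_le_mul_of_nonneg_right _ hRinv0.le
    exact mul_le_mul_of_nonneg_right h7 (by positivity)
  have h9 : 0 ≤ y * (B * n) := by positivity
  have e3 : (n - y) * ((1 - 1 / R) * n) = (1 - 1 / R) * n ^ 2 - y * ((1 - 1 / R) * n) := by
    ring
  have e4 : y * ((1 - 1 / R - B) * n) = y * ((1 - 1 / R) * n) - y * (B * n) := by ring
  have h11 : n / 2 * (B * q) * (1 / R) < B ^ 2 * n + B ^ 2 / 8 * n * q := by linarith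
  have h12 : q * (1 / R) / 2 < B + B / 8 * q := by
    by_contra hc
    push Not at hc
    have h121 : (n * B) * (B + B / 8 * q) ≤ (n * B) * (q * (1 / R) / 2) :=
      mul_le_mul_of_nonneg_left hc (by positivity)
    have e5 : (n * B) * (B + B / 8 * q) = B ^ 2 * n + B ^ 2 / 8 * n * q := by ring
    have e6 : (n * B) * (q * (1 / R) / 2) = n / 2 * (B * q) * (1 / R) := by ring
    linarith
  have h13 : B ≤ 1 / R := by
    rw [le_div_iff₀ hR0]
    have : B * R ≤ B * (R + 1) := mul_le_mul_of_nonneg_left (by linarith) hB0.le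
    linarith
  have h14 : B * q ≤ (1 / R) * q := mul_le_mul_of_nonneg_right h13 hq.le
  -- so B q / 2 ≤ q (1/R) / 2 < B + B q / 8
  have h15 : 3 / 8 * (B * q) < B := by
    have e7 : B / 8 * q = (B * q) / 8 := by ring
    linarith
  linarith

/-- numeric core of the final contradiction -/
theorem num4 (n q R B z : ℝ) (hR2 : 2 ≤ R) (hqq : q * q = n) (hq : 2304 ≤ q) (hRq : R ≤ q)
    (hB0 : 0 < B) (hB1 : B ≤ 1 / 12) (hBR : B * (R + 1) = 1 / 4)
    (hz0 : 0 ≤ z) (hz : z ≤ 2 * (B * q))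
    (h : n ≤ R + z + (R + 2 * R ^ 2) * z ^ 2) : False := by
  have hq0 : 0 < q := by linarith
  have h1 : z ^ 2 ≤ (2 * (B * q)) ^ 2 := pow_le_pow_left₀ hz0 hz 2
  have e1 : (2 * (B * q)) ^ 2 = 4 * B ^ 2 * n := by rw [← hqq]; ring
  rw [e1] at h1
  have hn0 : 0 ≤ n := by rw [← hqq]; positivity
  have h3 : (R + 2 * R ^ 2) * (4 * B ^ 2) ≤ 1 / 2 := by
    have h31 : (R + 2 * R ^ 2) ≤ 2 * (R + 1) ^ 2 := by nlinarith
    have h5 : (B * (R + 1)) ^ 2 = 1 / 16 := by rw [hBR]; norm_num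
    have h6 : (R + 2 * R ^ 2) * (4 * B ^ 2) ≤ 2 * (R + 1) ^ 2 * (4 * B ^ 2) :=
      mul_le_mul_of_nonneg_right h31 (by positivity)
    have h7 : 2 * (R + 1) ^ 2 * (4 * B ^ 2) = 8 * (B * (R + 1)) ^ 2 := by ring
    linarith
  have h2 : (R + 2 * R ^ 2) * z ^ 2 ≤ n / 2 := by
    calc (R + 2 * R ^ 2) * z ^ 2 ≤ (R + 2 * R ^ 2) * (4 * B ^ 2 * n) :=
          mul_le_mul_of_nonneg_left h1 (by positivity)
      _ = ((R + 2 * R ^ 2) * (4 * B ^ 2)) * n := by ring
      _ ≤ 1 / 2 * n := mul_le_mul_of_nonneg_right h3 hn0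
      _ = n / 2 := by ring
  have h4 : B * q ≤ 1 / 12 * q := mul_le_mul_of_nonneg_right hB1 hq0.le
  have h5 : 2304 * q ≤ q * q := mul_le_mul_of_nonneg_right hq hq0.le
  linarith

/-- numeric facts about B and q -/
theorem num5 (q R B : ℝ) (hR2 : 2 ≤ R) (hB : B = 1 / (4 * (R + 1)))
    (hq0 : 256 * (R + 1) ^ 2 ≤ q) :
    0 < B ∧ B ≤ 1 / 12 ∧ B * (R + 1) = 1 / 4 ∧ 16 ≤ B ^ 2 * q ∧ 2304 ≤ q ∧ R ≤ q ∧
      1 / (128 * (R + 1) ^ 2) = B ^ 2 / 8 := by
  have hBR : B * (R + 1) = 1 / 4 := by rw [hB]; field_simp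
  have hB0 : 0 < B := by rw [hB]; positivity
  have hB1 : B ≤ 1 / 12 := by
    rw [hB, div_le_div_iff₀ (by positivity) (by norm_num)]; linarith
  have hcB : 1 / (128 * (R + 1) ^ 2) = B ^ 2 / 8 := by rw [hB]; field_simp; norm_num
  have hBq : 16 ≤ B ^ 2 * q := by
    have h1 : B ^ 2 * (256 * (R + 1) ^ 2) = 16 := by
      have h2 : (B * (R + 1)) ^ 2 = 1 / 16 := by rw [hBR]; norm_num
      have h3 : B ^ 2 * (256 * (R + 1) ^ 2) = 256 * (B * (R + 1)) ^ 2 := by ring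
      rw [h3, h2]; norm_num
    rw [← h1]
    exact mul_le_mul_of_nonneg_left hq0 (by positivity)
  have h9 : (9 : ℝ) ≤ (R + 1) ^ 2 := by nlinarith
  refine ⟨hB0, hB1, hBR, hBq, by linarith, by nlinarith, hcB⟩

end Pool.Agent.Lib.MP_f053ce_co
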