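import Mathlib
import Pool.Agent.Lib.MP_f053ce_co.Core
import Pool.Agent.Lib.MP_f053ce_co.Numeric

namespace Pool.Agent.Lib.MP_f053ce_co

open Finset

variable {V : Type*}

/-- degree sum of a clique in real numbers -/
theorem clique_deg_real [Fintype V] [DecidableEq V] (G : SimpleGraph V) [DecidableRel G.Adj]
    (r : ℕ)
    (hn : ¬ ∃ c : V → Fin (r + 1), ∀ u v, G.Adj u v → c u ≠ c v)
    (hx : ∀ x, ∃ c : V → Fin (r + 1), ∀ u v, u ≠ x → v ≠ x → G.Adj u v → c u ≠ c v)
    (j : ℕ) (hj : j ≤ r + 1) (K : Finset V) (hK : G.IsNClique j K) :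
    (∑ x ∈ K, (G.degree x : ℝ)) ≤ ((r : ℝ) - 1) * Fintype.card V + (j : ℝ) * (j - r) + 2 := by
  have h1 := clique_deg G r hn hx K hK.isClique (by rw [hK.card_eq]; exact hj)
  rw [hK.card_eq] at h1
  have h2 : (Kᶜ).card + j = Fintype.card V := by
    rw [← hK.card_eq]; exact Finset.card_compl_add_card K
  have h3 : ((∑ x ∈ K, G.degree x : ℕ) : ℝ) + 2 * ((Kᶜ).card : ℝ)
      ≤ (j : ℝ) * ((j - 1 : ℕ) : ℝ) + (r + 1) * ((Kᶜ).card : ℝ) + 2 := by exact_mod_cast h1
  have h4 : ((Kᶜ).card : ℝ) = Fintype.card V - j := by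
    have : ((Kᶜ).card : ℝ) + j = Fintype.card V := by exact_mod_cast h2
    linarith
  have h5 : (j : ℝ) * ((j - 1 : ℕ) : ℝ) = j * (j - 1) := by
    rcases Nat.eq_zero_or_pos j with h | h
    · subst h; simp
    · rw [Nat.cast_sub h]; simp
  rw [h5, h4] at h3
  push_cast at h3
  linarith

/-- vertices of degree less than `a` -/
noncomputable def low [Fintype V] (G : SimpleGraph V) [DecidableRel G.Adj] (a : ℝ) : Finset V :=
  letI := Classical.decPred (fun v : V => (G.degree v : ℝ) < a)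
  univ.filter (fun v => (G.degree v : ℝ) < a)

theorem mem_low [Fintype V] (G : SimpleGraph V) [DecidableRel G.Adj] (a : ℝ) (v : V) :
    v ∈ low G a ↔ (G.degree v : ℝ) < a := by
  simp [low]

/-- sum of degrees over a set of vertices of low degree -/
theorem sum_low [Fintype V] [DecidableEq V] (G : SimpleGraph V) [DecidableRel G.Adj] (a : ℝ)
    (Y : Finset V) (hY : Y ⊆ low G a) (T b : ℝ) (t : ℕ) (hb : 0 ≤ b)
    (hcard : (Fintype.card V : ℝ) * (t + 1 : ℕ) ≤ (Fintype.card V - Y.card) + T + b)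
    (hT : ∀ K : Finset V, K ⊆ Yᶜ → G.IsNClique (t + 1) K → ∑ x ∈ K, (G.degree x : ℝ) ≤ T) :
    ∑ v : V, (G.degree v : ℝ) ≤ (Y.card : ℝ) * a +
      (((Fintype.card V : ℝ) - Y.card) * T / ((t : ℝ) + 1)
        + b ^ 2 / 4 * (1 - 1 / ((t : ℝ) + 1))) := by
  have hcompl : ((Yᶜ).card : ℝ) = Fintype.card V - Y.card := by
    have : ((Yᶜ).card : ℝ) + Y.card = Fintype.card V := by
      exact_mod_cast Finset.card_compl_add_card Y
    linarith
  have h1 := turan_aux G t (Yᶜ) T b hb (by rw [hcompl]; exact hcard) hT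
  rw [hcompl] at h1
  push_cast at h1
  have h2 : ∑ v ∈ Y, (G.degree v : ℝ) ≤ (Y.card : ℝ) * a := by
    rw [← nsmul_eq_mul]
    apply Finset.sum_le_card_nsmul
    intro v hv
    exact ((mem_low G a v).mp (hY hv)).le
  have h3 : ∑ v : V, (G.degree v : ℝ) = ∑ v ∈ Y, (G.degree v : ℝ) + ∑ v ∈ Yᶜ, (G.degree v : ℝ) :=
    (Finset.sum_add_sum_compl Y _).symm
  linarith

/-- combinatorial part of the second order upper bound: given an `r`-clique
(`r = t + 1`) of almost maximal degree sum outside `Y`, where every `r + 1`-clique meets `Y`,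
the number of vertices is quadratic in the number of atypical vertices. -/
theorem from_clique [Fintype V] [DecidableEq V] (G : SimpleGraph V) [DecidableRel G.Adj] (t : ℕ)
    (hn : ¬ ∃ c : V → Fin (t + 1 + 1), ∀ u v, G.Adj u v → c u ≠ c v)
    (hx : ∀ x, ∃ c : V → Fin (t + 1 + 1), ∀ u v, u ≠ x → v ≠ x → G.Adj u v → c u ≠ c v)
    (Y : Finset V) (fact1 : ∀ K : Finset V, G.IsNClique (t + 1 + 1) K → ∃ v ∈ K, v ∈ Y)
    (K : Finset V) (hKY : K ⊆ Yᶜ) (hK : G.IsNClique (t + 1) K) :
    ∃ z : ℕ, z + ∑ x ∈ K, G.degree x ≤ 2 * Y.card + t * Fintype.card V ∧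
      Fintype.card V ≤ (t + 1) + z + ((t + 1) + 2 * (t + 1) ^ 2) * z ^ 2 := by
  classical
  have hKcard : K.card = t + 1 := hK.card_eq
  -- the atypical vertices
  set Z0 : Finset V := (Yᶜ).filter (fun v => v ∉ K ∧ (K.filter (fun x => G.Adj v x)).card ≠ t)
    with hZ0
  set Z : Finset V := Y ∪ Z0 with hZ
  -- enumeration of the clique
  set e := (K.equivFinOfCardEq hKcard) with he
  set x : Fin (t + 1) → V := fun i => (e.symm i : V) with hxdef
  have hxK : ∀ i, x i ∈ K := fun i => (e.symm i).2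
  have hxsurj : ∀ v ∈ K, ∃ i, x i = v := by
    intro v hv
    exact ⟨e ⟨v, hv⟩, by simp [hxdef]⟩
  have hrange : ∀ v, v ∈ Set.range x ↔ v ∈ K := by
    intro v
    constructor
    · rintro ⟨i, rfl⟩; exact hxK i
    · intro hv; exact hxsurj v hv
  have hxinj : Function.Injective x := by
    intro i j hij
    exact e.symm.injective (Subtype.ext hij)
  have hxadj : ∀ i j, i ≠ j → G.Adj (x i) (x j) := by
    intro i j hij
    exact hK.isClique (hxK i) (hxK j) (fun h => hij (hxinj h))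
  -- vertices outside Y, outside K see at most t vertices of K
  have hsee : ∀ v, v ∉ Y → v ∉ K → (K.filter (fun x => G.Adj v x)).card ≤ t := by
    intro v hvY hvK
    by_contra hcon
    push Not at hcon
    have h1 : K.filter (fun x => G.Adj v x) = K := by
      apply Finset.eq_of_subset_of_card_le (Finset.filter_subset _ _)
      rw [hKcard]; omega
    have h2 : ∀ b ∈ K, G.Adj v b := by
      intro b hb
      rw [← h1] at hb
      exact (Finset.mem_filter.mp hb).2
    obtain ⟨w, hw, hwY⟩ := fact1 (insert v K) (hK.insert h2)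
    rcases Finset.mem_insert.mp hw with h | h
    · exact hvY (h ▸ hwY)
    · exact (Finset.mem_compl.mp (hKY h)) hwY
  have hgood : ∀ v, v ∉ Z → v ∉ K → ∃ i, ¬ G.Adj v (x i) ∧ ∀ j, j ≠ i → G.Adj v (x j) := by
    intro v hvZ hvK
    have hvY : v ∉ Y := fun h => hvZ (Finset.mem_union_left _ h)
    have h1 : (K.filter (fun x => G.Adj v x)).card = t := by
      by_contra hcon
      apply hvZ
      apply Finset.mem_union_right
      rw [hZ0]
      exact Finset.mem_filter.mpr ⟨Finset.mem_compl.mpr hvY, hvK, hcon⟩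
    have h2 : (K.filter (fun x => ¬ G.Adj v x)).card = 1 := by
      have := Finset.card_filter_add_card_filter_not (s := K) (fun x => G.Adj v x)
      omega
    obtain ⟨a, ha⟩ := Finset.card_eq_one.mp h2
    have haK : a ∈ K.filter (fun x => ¬ G.Adj v x) := by rw [ha]; simp
    obtain ⟨i, hi⟩ := hxsurj a (Finset.mem_filter.mp haK).1
    refine ⟨i, by rw [hi]; exact (Finset.mem_filter.mp haK).2, ?_⟩
    intro j hj
    by_contra hcon
    have : x j ∈ K.filter (fun x => ¬ G.Adj v x) := Finset.mem_filter.mpr ⟨hxK j, hcon⟩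
    rw [ha, Finset.mem_singleton, ← hi] at this
    exact hj (hxinj this)
  set p : V → Fin (t + 1) := fun v =>
    if h : ∃ i, ¬ G.Adj v (x i) ∧ ∀ j, j ≠ i → G.Adj v (x j) then Classical.choose h else 0
    with hp
  have hpspec : ∀ v, v ∉ Z → v ∉ K → ¬ G.Adj v (x (p v)) ∧ ∀ j, j ≠ p v → G.Adj v (x j) := by
    intro v hvZ hvK
    have h := hgood v hvZ hvK
    simp only [hp, dif_pos h]
    exact Classical.choose_spec h
  have hcore := core_count G (t + 1) hn hx x hxadj Z p
    (fun v hvZ hvx j hj => (hpspec v hvZ (fun h => hvx ((hrange v).mpr h))).2 j hj)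
    (fun v hvZ hvx => (hpspec v hvZ (fun h => hvx ((hrange v).mpr h))).1)
    (by
      intro v w hvZ hvx hwZ hwx hpvw hvw
      have hvK : v ∉ K := fun h => hvx ((hrange v).mpr h)
      have hwK : w ∉ K := fun h => hwx ((hrange w).mpr h)
      have hvs := (hpspec v hvZ hvK).2
      have hws := (hpspec w hwZ hwK).2
      -- clique K \ x_p plus v, w
      have h1 : G.IsNClique t (K.erase (x (p v))) := by
        constructor
        · intro a ha b hb hab
          exact hK.isClique (Finset.mem_of_mem_erase ha) (Finset.mem_of_mem_erase hb) hab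
        · rw [Finset.card_erase_of_mem (hxK _), hKcard]; rfl
      have h2 : G.IsNClique (t + 1) (insert v (K.erase (x (p v)))) := by
        apply h1.insert
        intro b hb
        obtain ⟨hb1, hb2⟩ := Finset.mem_erase.mp hb
        obtain ⟨j, rfl⟩ := hxsurj b hb2
        exact hvs j (fun h => hb1 (by rw [h]))
      have h3 : G.IsNClique (t + 1 + 1) (insert w (insert v (K.erase (x (p v))))) := by
        apply h2.insert
        intro b hb
        rcases Finset.mem_insert.mp hb with h | h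
        · rw [h]; exact hvw.symm
        · obtain ⟨hb1, hb2⟩ := Finset.mem_erase.mp h
          obtain ⟨j, rfl⟩ := hxsurj b hb2
          exact hws j (fun h => hb1 (by rw [h, hpvw]))
      obtain ⟨a, ha, haY⟩ := fact1 _ h3
      rcases Finset.mem_insert.mp ha with h | h
      · exact hwZ (h ▸ Finset.mem_union_left _ haY)
      · rcases Finset.mem_insert.mp h with h | h
        · exact hvZ (h ▸ Finset.mem_union_left _ haY)
        · exact (Finset.mem_compl.mp (hKY (Finset.mem_of_mem_erase h))) haY)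
  refine ⟨Z.card, ?_, hcore⟩
  -- bound on |Z|
  have h1 : ∑ a ∈ K, G.degree a + Z0.card ≤ t * Fintype.card V + Y.card := by
    rw [sum_degree_eq]
    have h2 : ∀ v : V, (K.filter (fun x => G.Adj v x)).card + (if v ∈ Z0 then 1 else 0)
        ≤ t + (if v ∈ Y then 1 else 0) := by
      intro v
      by_cases hvY : v ∈ Y
      · have hvZ0 : v ∉ Z0 := by
          intro h
          exact (Finset.mem_compl.mp (Finset.mem_filter.mp h).1) hvY
        have : (K.filter (fun x => G.Adj v x)).card ≤ t + 1 := by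
          rw [← hKcard]; exact Finset.card_filter_le _ _
        rw [if_pos hvY, if_neg hvZ0]; omega
      · by_cases hvZ0 : v ∈ Z0
        · have h3 := (Finset.mem_filter.mp hvZ0).2
          have h4 := hsee v hvY h3.1
          have h5 : (K.filter (fun x => G.Adj v x)).card < t := lt_of_le_of_ne h4 h3.2
          rw [if_neg hvY, if_pos hvZ0]; omega
        · by_cases hvK : v ∈ K
          · have : (K.filter (fun x => G.Adj v x)).card ≤ t := by
              have h6 : K.filter (fun x => G.Adj v x) ⊆ K.erase v := by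
                intro a ha
                obtain ⟨ha1, ha2⟩ := Finset.mem_filter.mp ha
                exact Finset.mem_erase.mpr ⟨(G.ne_of_adj ha2).symm, ha1⟩
              calc _ ≤ (K.erase v).card := Finset.card_le_card h6
                _ = t := by rw [Finset.card_erase_of_mem hvK, hKcard]; rfl
            rw [if_neg hvY, if_neg hvZ0]; omega
          · have := hsee v hvY hvK
            rw [if_neg hvY, if_neg hvZ0]; omega
    have h3 := Finset.sum_le_sum (fun v (_ : v ∈ (univ : Finset V)) => h2 v)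
    rw [Finset.sum_add_distrib, Finset.sum_add_distrib] at h3
    simp only [Finset.sum_const, Finset.card_univ, smul_eq_mul, Finset.sum_boole] at h3
    have e1 : (univ.filter (fun v => v ∈ Z0)) = Z0 := by ext; simp
    have e2 : (univ.filter (fun v => v ∈ Y)) = Y := by ext; simp
    rw [e1, e2] at h3
    simp only [Nat.cast_id] at h3
    rw [mul_comm t]
    exact h3
  have h2 : Z.card ≤ Y.card + Z0.card := Finset.card_union_le _ _
  omega

theorem upper [Fintype V] [DecidableEq V] (G : SimpleGraph V) [DecidableRel G.Adj] (t : ℕ)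
    (ht : 1 ≤ t)
    (hn : ¬ ∃ c : V → Fin (t + 1 + 1), ∀ u v, G.Adj u v → c u ≠ c v)
    (hx : ∀ x, ∃ c : V → Fin (t + 1 + 1), ∀ u v, u ≠ x → v ≠ x → G.Adj u v → c u ≠ c v)
    (hq0 : 256 * ((t : ℝ) + 1 + 1) ^ 2 ≤ Real.sqrt (Fintype.card V)) :
    ∑ v : V, (G.degree v : ℝ) ≤ (1 - 1 / ((t : ℝ) + 1)) * (Fintype.card V : ℝ) ^ 2
      - 1 / (128 * ((t : ℝ) + 1 + 1) ^ 2) * Fintype.card V * Real.sqrt (Fintype.card V) := by
  classical
  obtain ⟨n, hndef⟩ : ∃ n : ℝ, n = (Fintype.card V : ℝ) := ⟨_, rfl⟩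
  rw [← hndef] at hq0 ⊢
  obtain ⟨q, hq⟩ : ∃ q : ℝ, q = Real.sqrt n := ⟨_, rfl⟩
  rw [← hq] at hq0 ⊢
  have hn0 : (0 : ℝ) ≤ n := by rw [hndef]; exact Nat.cast_nonneg _
  have hqq : q * q = n := by rw [hq]; exact Real.mul_self_sqrt hn0
  obtain ⟨R, hR⟩ : ∃ R : ℝ, R = (t : ℝ) + 1 := ⟨_, rfl⟩
  rw [← hR] at hq0 ⊢
  have hR2 : (2 : ℝ) ≤ R := by
    have : (1 : ℝ) ≤ t := by exact_mod_cast ht
    rw [hR]; linarith
  obtain ⟨B, hB⟩ : ∃ B : ℝ, B = 1 / (4 * (R + 1)) := ⟨_, rfl⟩
  obtain ⟨hB0, hB1, hBR, hBq, hq1, hRq, hcB⟩ := num5 q R B hR2 hB hq0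
  rw [hcB]
  have hq00 : 0 < q := by linarith
  by_contra hD
  push Not at hD
  -- no large clique avoids Y
  have fact1 : ∀ K : Finset V, G.IsNClique (t + 1 + 1) K →
      ∃ v ∈ K, v ∈ low G ((1 - 1 / R - B) * n) := by
    intro K hK
    by_contra hcon
    push Not at hcon
    have h1 := clique_deg_real G (t + 1) hn hx (t + 1 + 1) le_rfl K hK
    have h2 : (K.card : ℝ) * ((1 - 1 / R - B) * n) ≤ ∑ x ∈ K, (G.degree x : ℝ) := by
      rw [← nsmul_eq_mul]
      apply Finset.card_nsmul_le_sum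
      intro v hv
      have := hcon v hv
      rw [mem_low] at this
      linarith
    rw [hK.card_eq] at h2
    push_cast at h1 h2
    rw [← hndef, ← hR] at h1
    rw [← hR] at h2
    apply num1 n R B hR2 _ hBR
    · linarith
    · rw [← hqq]
      have : 2304 * q ≤ q * q := mul_le_mul_of_nonneg_right hq1 hq00.le
      linarith
  have hclq : ∀ K : Finset V, G.IsNClique (t + 1) K →
      ∑ x ∈ K, (G.degree x : ℝ) ≤ (R - 1) * n + 2 := by
    intro K hK
    have h1 := clique_deg_real G (t + 1) hn hx (t + 1) (by omega) K hK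
    push_cast at h1
    rw [← hndef, ← hR] at h1
    linarith
  obtain ⟨Y, hY⟩ : ∃ Y : Finset V, Y = low G ((1 - 1 / R - B) * n) := ⟨_, rfl⟩
  rw [← hY] at fact1
  -- Fact 2
  have fact2 : (Y.card : ℝ) ≤ B / 2 * q := by
    by_contra hcon
    push Not at hcon
    have hm : ⌈B / 2 * q⌉₊ ≤ Y.card := Nat.ceil_le.mpr hcon.le
    obtain ⟨Y0, hY0, hY0c⟩ := Finset.exists_subset_card_eq hm
    have hy1 : B / 2 * q ≤ Y0.card := by rw [hY0c]; exact Nat.le_ceil _
    have hy2 : (Y0.card : ℝ) ≤ B / 2 * q + 1 := by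
      rw [hY0c]; exact (Nat.ceil_lt_add_one (by positivity)).le
    have h1 := sum_low G ((1 - 1 / R - B) * n) Y0 (hY ▸ hY0) ((R - 1) * n + 2) Y0.card t
      (Nat.cast_nonneg _)
      (by push_cast; rw [← hndef, ← hR]; linarith) (fun K _ hK => hclq K hK)
    rw [← hndef, ← hR] at h1
    exact num2 n q R B Y0.card _ hR2 hqq hq00 hB0 hB1 hBq hy1 hy2 hD h1
  -- Fact 3
  have fact3 : ∃ K : Finset V, K ⊆ Yᶜ ∧ G.IsNClique (t + 1) K ∧
      (R - 1) * n - B * q < ∑ x ∈ K, (G.degree x : ℝ) := by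
    by_contra hcon
    push Not at hcon
    have h1 := sum_low G ((1 - 1 / R - B) * n) Y hY.le ((R - 1) * n - B * q)
      (B * q + Y.card) t (by positivity)
      (by push_cast; rw [← hndef, ← hR]; linarith) hcon
    rw [← hndef, ← hR] at h1
    exact num3 n q R B Y.card _ hR2 hqq hq00 hB0 hB1 hBR hBq (Nat.cast_nonneg _) fact2 hD h1
  obtain ⟨K, hKY, hK, hKdeg⟩ := fact3
  obtain ⟨z, hz1, hz2⟩ := from_clique G t hn hx Y fact1 K hKY hK
  have hz1' : (z : ℝ) + ∑ x ∈ K, (G.degree x : ℝ) ≤ 2 * Y.card + t * n := by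
    rw [hndef]; exact_mod_cast hz1
  have hz2' : n ≤ R + z + (R + 2 * R ^ 2) * (z : ℝ) ^ 2 := by
    have h1 : ((Fintype.card V : ℕ) : ℝ) ≤
      (((t + 1) + z + ((t + 1) + 2 * (t + 1) ^ 2) * z ^ 2 : ℕ) : ℝ) := by
      exact_mod_cast hz2
    push_cast at h1
    rw [hndef, hR]
    exact h1
  have e5 : (t : ℝ) = R - 1 := by rw [hR]; ring
  rw [e5] at hz1'
  exact num4 n q R B z hR2 hqq hq1 hRq hB0 hB1 hBR (Nat.cast_nonneg _) (by linarith) hz2'

end Pool.Agent.Lib.MP_f053ce_co
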