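import Mathlib
import Pool.Agent.Lib.MP_f053ce_co.Card
import Pool.Agent.Lib.MP_f053ce_co.Upper

namespace Pool.Agent.Lib.MP_f053ce_co

open Finset

/-- the set of edge numbers is bounded -/
theorem bdd (k n : ℕ) :
    BddAbove {e : ℕ | ∃ G : SimpleGraph (Fin n), IsCritical k G ∧ G.edgeSet.ncard = e} := by
  classical
  apply Set.Finite.bddAbove
  apply Set.Finite.subset (Set.finite_range (fun G : SimpleGraph (Fin n) => G.edgeSet.ncard))
  rintro e ⟨G, _, rfl⟩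
  exact ⟨G, rfl⟩

/-- upper bound for a single graph -/
theorem upper_graph (s n : ℕ) (G : SimpleGraph (Fin n)) (hG : IsCritical (s + 4) G)
    (hq0 : 256 * ((s : ℝ) + 3) ^ 2 ≤ Real.sqrt n) :
    (G.edgeSet.ncard : ℝ) ≤ ((s : ℝ) + 1) / (2 * ((s : ℝ) + 2)) * (n : ℝ) ^ 2
      - 1 / (256 * ((s : ℝ) + 3) ^ 2) * ((n : ℝ) * Real.sqrt n) := by
  classical
  obtain ⟨hn, hx⟩ := (isCritical_iff G (s + 2)).mp hG
  have h1 := upper G (s + 1) (by omega) hn hx (by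
    rw [Fintype.card_fin]
    push_cast
    have : ((s : ℝ) + 1 + 1 + 1) = s + 3 := by ring
    rw [this]; exact hq0)
  rw [Fintype.card_fin] at h1
  push_cast at h1
  have h2 : ∑ v : Fin n, (G.degree v : ℝ) = 2 * (G.edgeSet.ncard : ℝ) := by
    have h3 := G.sum_degrees_eq_twice_card_edges
    have h4 : G.edgeSet.ncard = G.edgeFinset.card := by
      rw [← SimpleGraph.coe_edgeFinset, Set.ncard_coe_finset]
    rw [h4]
    exact_mod_cast h3
  rw [h2] at h1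
  have e1 : ((s : ℝ) + 1 + 1 + 1) = s + 3 := by ring
  have e2 : ((s : ℝ) + 1 + 1) = s + 2 := by ring
  rw [e1, e2] at h1
  have e3 : (1 - 1 / ((s : ℝ) + 2)) = 2 * (((s : ℝ) + 1) / (2 * ((s : ℝ) + 2))) := by
    have : ((s : ℝ) + 2) ≠ 0 := by positivity
    field_simp; ring
  have e4 : 1 / (128 * ((s : ℝ) + 3) ^ 2) = 2 * (1 / (256 * ((s : ℝ) + 3) ^ 2)) := by
    have : ((s : ℝ) + 3) ≠ 0 := by positivity
    field_simp; norm_num
  rw [e3, e4] at h1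
  linarith

/-- existence of a dense critical graph -/
theorem lower_graph (s n : ℕ) (hn : 16 * (s + 2) + 5 ≤ n) :
    ∃ H : SimpleGraph (Fin n), IsCritical (s + 4) H ∧
      ((s : ℝ) + 1) / (2 * ((s : ℝ) + 2)) * (n : ℝ) ^ 2 - 9 * ((s : ℝ) + 1) *
        ((n : ℝ) * Real.sqrt n) ≤ H.edgeSet.ncard := by
  classical
  -- choose the size parameter
  obtain ⟨K, hK2, hK, hK'⟩ : ∃ K : ℕ, 2 ≤ K ∧ 4 * (s + 2) * K ^ 2 + 2 * K + 1 ≤ n ∧
      n < 4 * (s + 2) * (K + 1) ^ 2 + 2 * (K + 1) + 1 := by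
    set P : ℕ → Prop := fun K => 4 * (s + 2) * K ^ 2 + 2 * K + 1 ≤ n with hP
    have hP2 : P 2 := by simp only [hP]; omega
    have h2n : 2 ≤ n := by omega
    refine ⟨Nat.findGreatest P n, Nat.le_findGreatest h2n hP2, Nat.findGreatest_spec h2n hP2, ?_⟩
    by_contra hcon
    push Not at hcon
    have h3 : P (Nat.findGreatest P n + 1) := hcon
    have h4 : Nat.findGreatest P n + 1 ≤ n := by
      simp only [hP] at h3
      nlinarith
    have h5 := Nat.le_findGreatest h4 h3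
    omega
  obtain ⟨M, rfl⟩ : ∃ M, K = M + 1 := ⟨K - 1, by omega⟩
  have hM1 : 1 ≤ M := by omega
  obtain ⟨ε, hε⟩ : ∃ ε, ε = n % 2 := ⟨_, rfl⟩
  have hε1 : ε = 0 ∨ ε = 1 := by omega
  obtain ⟨w, hw⟩ : ∃ w, n = 2 + (s + 2) * (2 * M + 2) ^ 2 + ε * (2 * M + 1) + 2 * w := by
    have h1 : 2 + (s + 2) * (2 * M + 2) ^ 2 + ε * (2 * M + 1) ≤ n := by
      have : (2 * M + 2) ^ 2 = 4 * (M + 1) ^ 2 := by ring
      rw [this]
      rcases hε1 with h | h
      · rw [h]; nlinarith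
      · rw [h]; nlinarith
    have h2 : (n - (2 + (s + 2) * (2 * M + 2) ^ 2 + ε * (2 * M + 1))) % 2 = 0 := by
      have h3 : (2 + (s + 2) * (2 * M + 2) ^ 2 + ε * (2 * M + 1)) % 2 = ε := by
        have e : 2 + (s + 2) * (2 * M + 2) ^ 2 + ε * (2 * M + 1)
          = ε + 2 * (1 + 2 * ((s + 2) * (M + 1) ^ 2) + ε * M) := by ring
        rw [e, Nat.add_mul_mod_self_left]
        rcases hε1 with h | h <;> rw [h]
      omega
    refine ⟨(n - (2 + (s + 2) * (2 * M + 2) ^ 2 + ε * (2 * M + 1))) / 2, ?_⟩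
    omega
  set m : Fin (s + 2) → Bool → ℕ := fun i b => if i = 0 ∧ b = true then 2 * M + ε else 2 * M
    with hm
  set L : Fin (s + 2) → Bool → ℕ := fun i b =>
    if i = 0 ∧ b = false then 2 * M + 1 + 2 * w else 2 * M + 1 with hL
  set nxt : Fin (s + 2) → Fin (s + 2) := fun i => if i = 0 then 1 else 0 with hnxt
  have hnxt' : ∀ i, nxt i ≠ i := by
    intro i
    simp only [hnxt]
    split_ifs with h
    · rw [h]; simp
    · exact fun h' => h h'.symm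
  have hm2 : ∀ i b, 2 ≤ m i b := by
    intro i b; simp only [hm]; split_ifs <;> omega
  have hmM : ∀ i b, 2 * M ≤ m i b := by
    intro i b; simp only [hm]; split_ifs <;> omega
  have hmL : ∀ i b, m i b ≤ L i b := by
    intro i b; simp only [hm, hL]; split_ifs <;> omega
  have hLodd : ∀ i b, L i b % 2 = 1 := by
    intro i b; simp only [hL]; split_ifs <;> omega
  have hL3 : ∀ i b, 3 ≤ L i b := by
    intro i b; simp only [hL]; split_ifs <;> omega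
  have hcard : Fintype.card (Vtx (s + 2) m L) = n := by
    rw [card_vtx]
    have h1 : ∀ i : Fin (s + 2), m i false * m i true + 2 + (m i true + m i false) +
        (L i true + L i false) = (2 * M + 2) ^ 2 + if i = 0 then ε * (2 * M + 1) + 2 * w else 0 := by
      intro i
      simp only [hm, hL]
      by_cases hi : i = 0
      · simp [hi]; ring
      · simp [hi]; ring
    rw [Finset.sum_congr rfl (fun i _ => h1 i), Finset.sum_add_distrib, Finset.sum_const,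
      Finset.sum_ite_eq' Finset.univ (0 : Fin (s + 2)), Finset.card_univ, Fintype.card_fin,
      if_pos (Finset.mem_univ _), smul_eq_mul]
    omega
  obtain ⟨H, hH, hHe⟩ := transport (gr (s + 2) m L nxt) (s + 2) n hcard
    (gr_not_col nxt hnxt' (fun i b => by have := hm2 i b; omega) hL3 hLodd)
    (gr_crit nxt hnxt' 0 hm2 hmL hLodd)
  refine ⟨H, hH, ?_⟩
  have hdeg := degree_sum_lower (r := s + 2) (m := m) (L := L) nxt (2 * M) hmM
  rw [← hHe] at hdeg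
  have e0 : s + 2 - 1 = s + 1 := by omega
  rw [e0] at hdeg
  have hdeg' : ((s : ℝ) + 2) * (2 * M * (2 * M)) * (((s : ℝ) + 1) * (2 * M * (2 * M)))
      ≤ 2 * (H.edgeSet.ncard : ℝ) := by exact_mod_cast hdeg
  -- numeric part
  obtain ⟨R, hR⟩ : ∃ R : ℝ, R = (s : ℝ) + 2 := ⟨_, rfl⟩
  have hR2 : 2 ≤ R := by rw [hR]; have : (0 : ℝ) ≤ s := Nat.cast_nonneg s; linarith
  have hs1 : (s : ℝ) + 1 = R - 1 := by rw [hR]; ring
  rw [hs1, ← hR] at hdeg' ⊢
  obtain ⟨x, hx⟩ : ∃ x : ℝ, x = (n : ℝ) := ⟨_, rfl⟩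
  obtain ⟨q, hq⟩ : ∃ q : ℝ, q = Real.sqrt x := ⟨_, rfl⟩
  have hx0 : 0 ≤ x := by rw [hx]; exact Nat.cast_nonneg _
  have hqq : q * q = x := by rw [hq]; exact Real.mul_self_sqrt hx0
  have hq0 : 0 ≤ q := by rw [hq]; exact Real.sqrt_nonneg _
  rw [← hx, ← hq]
  obtain ⟨μ, hμ⟩ : ∃ μ : ℝ, μ = (M : ℝ) := ⟨_, rfl⟩
  have hμ1 : 1 ≤ μ := by rw [hμ]; exact_mod_cast hM1
  rw [← hμ] at hdeg'
  have hxu : x ≤ 4 * R * (μ + 2) ^ 2 + 2 * (μ + 2) + 1 := by
    have : (n : ℝ) ≤ ((4 * (s + 2) * (M + 1 + 1) ^ 2 + 2 * (M + 1 + 1) + 1 : ℕ) : ℝ) := by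
      exact_mod_cast hK'.le
    push_cast at this
    rw [hx, hR, hμ]
    have e : ((M : ℝ) + 1 + 1) = M + 2 := by ring
    rw [e] at this
    exact this
  have hxl : 4 * R * (μ + 1) ^ 2 ≤ x := by
    have : ((4 * (s + 2) * (M + 1) ^ 2 : ℕ) : ℝ) ≤ (n : ℝ) := by
      exact_mod_cast (by omega : 4 * (s + 2) * (M + 1) ^ 2 ≤ n)
    push_cast at this
    rw [hx, hR, hμ]
    exact this
  have hμq : μ + 1 ≤ q / 2 := by
    have h1 : (2 * (μ + 1)) ^ 2 ≤ q ^ 2 := by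
      have h2 : q ^ 2 = x := by rw [← hqq]; ring
      rw [h2]
      have h3 : 4 * 1 * (μ + 1) ^ 2 ≤ 4 * R * (μ + 1) ^ 2 := by
        apply mul_le_mul_of_nonneg_right (by linarith) (by positivity)
      have h4 : (2 * (μ + 1)) ^ 2 = 4 * 1 * (μ + 1) ^ 2 := by ring
      linarith
    have h5 := abs_le_of_sq_le_sq h1 hq0
    have h6 := (abs_le.mp h5).2
    linarith
  -- X = R * (2 μ)^2
  obtain ⟨X, hX⟩ : ∃ X : ℝ, X = R * (2 * μ * (2 * μ)) := ⟨_, rfl⟩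
  have hX0 : 0 ≤ X := by rw [hX]; positivity
  have hXx : x - 9 * R * q ≤ X := by
    have h1 : 4 * R * (μ + 2) ^ 2 = X + 16 * R * (μ + 1) := by rw [hX]; ring
    have h2 : 2 * (μ + 2) + 1 ≤ 2 * R * (μ + 1) := by nlinarith
    have h3 : 18 * R * (μ + 1) ≤ 18 * R * (q / 2) :=
      mul_le_mul_of_nonneg_left hμq (by linarith)
    linarith
  have hX2 : x ^ 2 - 18 * R * (x * q) ≤ X ^ 2 := by
    rcases le_total 0 (x - 9 * R * q) with h | h
    · have h1 : (x - 9 * R * q) ^ 2 ≤ X ^ 2 := pow_le_pow_left₀ h hXx 2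
      have h2 : 0 ≤ (9 * R * q) ^ 2 := by positivity
      have h3 : (x - 9 * R * q) ^ 2 = x ^ 2 - 18 * R * (x * q) + (9 * R * q) ^ 2 := by ring
      linarith
    · have h1 : x * (x - 9 * R * q) ≤ 0 := mul_nonpos_of_nonneg_of_nonpos hx0 h
      have h2 : 0 ≤ X ^ 2 := by positivity
      have h3 : x ^ 2 - 18 * R * (x * q) = x * (x - 9 * R * q) - x * (9 * R * q) := by ring
      have h4 : 0 ≤ x * (9 * R * q) := by positivity
      linarith
  have hE : (R - 1) / R * X ^ 2 ≤ 2 * (H.edgeSet.ncard : ℝ) := by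
    have h1 : (R - 1) / R * X ^ 2 = R * (2 * μ * (2 * μ)) * ((R - 1) * (2 * μ * (2 * μ))) := by
      have : R ≠ 0 := by linarith
      rw [hX]; field_simp
    rw [h1]; exact hdeg'
  have h1 : (R - 1) / R * (x ^ 2 - 18 * R * (x * q)) ≤ (R - 1) / R * X ^ 2 := by
    apply mul_le_mul_of_nonneg_left hX2
    apply div_nonneg <;> linarith
  have h2 : (R - 1) / R * (x ^ 2 - 18 * R * (x * q))
      = 2 * ((R - 1) / (2 * R) * x ^ 2 - 9 * (R - 1) * (x * q)) := by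
    have : R ≠ 0 := by linarith
    field_simp; ring
  linarith

theorem main (k n : ℕ) (hk : 4 ≤ k) (hn : 65536 * (k - 1) ^ 4 ≤ n) :
    (∃ G : SimpleGraph (Fin n), IsCritical k G) ∧
    ((k : ℝ) - 3) / (2 * ((k : ℝ) - 2)) * (n : ℝ) ^ 2
        - 9 * ((k : ℝ) - 3) * ((n : ℝ) * Real.sqrt n) ≤ (f k n : ℝ) ∧
    (f k n : ℝ) ≤ ((k : ℝ) - 3) / (2 * ((k : ℝ) - 2)) * (n : ℝ) ^ 2
        - 1 / (256 * ((k : ℝ) - 1) ^ 2) * ((n : ℝ) * Real.sqrt n) := by
  obtain ⟨s, rfl⟩ : ∃ s, k = s + 4 := ⟨k - 4, by omega⟩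
  have e1 : (((s + 4 : ℕ) : ℝ) - 3) = s + 1 := by push_cast; ring
  have e2 : (((s + 4 : ℕ) : ℝ) - 2) = s + 2 := by push_cast; ring
  have e3 : (((s + 4 : ℕ) : ℝ) - 1) = s + 3 := by push_cast; ring
  have e4 : s + 4 - 1 = s + 3 := by omega
  rw [e1, e2, e3]
  rw [e4] at hn
  have hn' : 16 * (s + 2) + 5 ≤ n := by
    have h1 : s + 3 ≤ (s + 3) ^ 4 := Nat.le_self_pow (by norm_num) _
    omega
  obtain ⟨H, hH, hHe⟩ := lower_graph s n hn'
  have hne : {e : ℕ | ∃ G : SimpleGraph (Fin n), IsCritical (s + 4) G ∧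
      G.edgeSet.ncard = e}.Nonempty := ⟨_, H, hH, rfl⟩
  refine ⟨⟨H, hH⟩, ?_, ?_⟩
  · have h1 : H.edgeSet.ncard ≤ f (s + 4) n := le_csSup (bdd (s + 4) n) ⟨H, hH, rfl⟩
    have h2 : (H.edgeSet.ncard : ℝ) ≤ (f (s + 4) n : ℝ) := by exact_mod_cast h1
    linarith
  · obtain ⟨G, hG, hGe⟩ := Nat.sSup_mem hne (bdd (s + 4) n)
    have hGe' : G.edgeSet.ncard = f (s + 4) n := hGe
    rw [← hGe']
    apply upper_graph s n G hG
    apply Real.le_sqrt_of_sq_le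
    have h1 : ((65536 * (s + 3) ^ 4 : ℕ) : ℝ) ≤ (n : ℝ) := by exact_mod_cast hn
    push_cast at h1
    have h2 : (256 * ((s : ℝ) + 3) ^ 2) ^ 2 = 65536 * ((s : ℝ) + 3) ^ 4 := by ring
    rw [h2]
    exact h1

end Pool.Agent.Lib.MP_f053ce_co
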