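import Mathlib
import Pool.Agent.Lib.MP_f053ce_co.Bridge

namespace Pool.Agent.Lib.MP_f053ce_co

open Finset

/-- number of non-neighbours of a vertex -/
def nd {n : ℕ} (G : SimpleGraph (Fin n)) [DecidableRel G.Adj] (u : Fin n) : ℕ :=
  (univ.filter (fun w => w ≠ u ∧ ¬ G.Adj u w)).card

theorem nd_add_degree {n : ℕ} (G : SimpleGraph (Fin n)) [DecidableRel G.Adj] (u : Fin n) :
    nd G u + G.degree u + 1 = n := by
  classical
  have h1 : (univ.filter (fun w => w ≠ u ∧ ¬ G.Adj u w)) ∪ G.neighborFinset u ∪ {u} = univ := by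
    ext w
    simp only [Finset.mem_union, Finset.mem_filter, Finset.mem_univ, true_and,
      SimpleGraph.mem_neighborFinset, Finset.mem_singleton, iff_true]
    by_cases h : w = u
    · exact Or.inr h
    · by_cases h' : G.Adj u w
      · exact Or.inl (Or.inr h')
      · exact Or.inl (Or.inl ⟨h, h'⟩)
  have d1 : Disjoint (univ.filter (fun w => w ≠ u ∧ ¬ G.Adj u w)) (G.neighborFinset u) := by
    rw [Finset.disjoint_left]
    intro w hw hw'
    exact (Finset.mem_filter.mp hw).2.2 ((SimpleGraph.mem_neighborFinset G u w).mp hw')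
  have d2 : Disjoint ((univ.filter (fun w => w ≠ u ∧ ¬ G.Adj u w)) ∪ G.neighborFinset u) {u} := by
    rw [Finset.disjoint_singleton_right]
    intro h
    rcases Finset.mem_union.mp h with h | h
    · exact (Finset.mem_filter.mp h).2.1 rfl
    · exact G.loopless.irrefl u ((SimpleGraph.mem_neighborFinset G u u).mp h)
  have h2 := congrArg Finset.card h1
  rw [Finset.card_union_of_disjoint d2, Finset.card_union_of_disjoint d1, Finset.card_singleton,
    SimpleGraph.card_neighborFinset_eq_degree, Finset.card_univ, Fintype.card_fin] at h2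
  exact h2

/-- a colour class of size at least two has at least two non-adjacent pairs leaving it -/
theorem no_leaf {V : Type*} (G : SimpleGraph V) (r : ℕ)
    (hn : ¬ ∃ c : V → Fin (r + 1), ∀ u v, G.Adj u v → c u ≠ c v)
    (hx : ∀ x, ∃ c : V → Fin (r + 1), ∀ u v, u ≠ x → v ≠ x → G.Adj u v → c u ≠ c v)
    (S : Set V) (hS : ∀ u ∈ S, ∀ w ∈ S, ¬ G.Adj u w) (x y : V) (hxS : x ∈ S)
    (hxy : y ≠ x) (h : ∀ w, w ∉ S → G.Adj y w) : False := by
  classical
  obtain ⟨c, hc⟩ := hx x
  apply hn
  refine ⟨fun v => if v ∈ S then c y else c v, ?_⟩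
  intro u w huw
  by_cases hu : u ∈ S
  · by_cases hw : w ∈ S
    · exact absurd huw (hS u hu w hw)
    · simp only [if_pos hu, if_neg hw]
      exact hc y w hxy (fun h' => hw (h' ▸ hxS)) (h w hw)
  · by_cases hw : w ∈ S
    · simp only [if_neg hu, if_pos hw]
      exact (hc y u hxy (fun h' => hu (h' ▸ hxS)) (h u hu)).symm
    · simp only [if_neg hu, if_neg hw]
      exact hc u w (fun h' => hu (h' ▸ hxS)) (fun h' => hw (h' ▸ hxS)) huw

/-- no vertex has exactly one non-neighbour -/
theorem no_single {V : Type*} (G : SimpleGraph V) (r : ℕ)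
    (hn : ¬ ∃ c : V → Fin (r + 1), ∀ u v, G.Adj u v → c u ≠ c v)
    (hx : ∀ x, ∃ c : V → Fin (r + 1), ∀ u v, u ≠ x → v ≠ x → G.Adj u v → c u ≠ c v)
    (x y : V) (hxy : x ≠ y) (hna : ¬ G.Adj x y) (h : ∀ w, w ≠ x → w ≠ y → G.Adj x w) : False := by
  classical
  obtain ⟨c, hc⟩ := hx y
  apply hn
  refine ⟨fun v => if v = y then c x else c v, ?_⟩
  intro u w huw
  by_cases hu : u = y
  · by_cases hw : w = y
    · exact absurd huw (by rw [hu, hw]; exact G.loopless.irrefl y)
    · simp only [if_pos hu, if_neg hw]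
      have hwx : w ≠ x := by
        intro h'
        apply hna
        rw [← hu, ← h']; exact huw.symm
      exact hc x w hxy hw (h w hwx hw)
  · by_cases hw : w = y
    · simp only [if_neg hu, if_pos hw]
      have hux : u ≠ x := by
        intro h'
        apply hna
        rw [← hw, ← h']; exact huw
      exact (hc x u hxy hu (h u hux hu)).symm
    · simp only [if_neg hu, if_neg hw]
      exact hc u w hu hw huw

/-- A critical `k`-chromatic graph of order `n > k` has at least `2 (n - k) + 1` non-edges. -/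
theorem nonedges (r n : ℕ) (hnr : r + 2 < n) (G : SimpleGraph (Fin n))
    (hG : IsCritical (r + 2) G) :
    2 * G.edgeSet.ncard + 4 * (n - (r + 2)) + 2 ≤ n * (n - 1) := by
  classical
  obtain ⟨hn, hx⟩ := (isCritical_iff G r).mp hG
  -- a non-adjacent pair
  obtain ⟨v, w0, hvw, hna⟩ : ∃ v w, v ≠ w ∧ ¬ G.Adj v w := by
    by_contra hcon
    push Not at hcon
    obtain ⟨c, hc⟩ := hx ⟨0, by omega⟩
    have hinj : Set.InjOn c {v : Fin n | v ≠ ⟨0, by omega⟩} := by
      intro a ha b hb hab
      by_contra hne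
      exact hc a b ha hb (hcon a b hne) hab
    have h1 : (univ.erase (⟨0, by omega⟩ : Fin n)).card ≤ (univ : Finset (Fin (r + 1))).card := by
      apply Finset.card_le_card_of_injOn c (fun _ _ => by simp)
      intro a ha b hb hab
      exact hinj (by simpa using ha) (by simpa using hb) hab
    rw [Finset.card_erase_of_mem (Finset.mem_univ _), Finset.card_univ, Finset.card_univ,
      Fintype.card_fin, Fintype.card_fin] at h1
    omega
  obtain ⟨c, hc⟩ := hx v
  set S : Fin (r + 1) → Finset (Fin n) := fun a => univ.filter (fun u => u ≠ v ∧ c u = a) with hS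
  have hSmem : ∀ a u, u ∈ S a ↔ u ≠ v ∧ c u = a := by
    intro a u; simp [hS]
  -- classes are non-empty
  have hSne : ∀ a, 1 ≤ (S a).card := by
    intro a
    rw [Nat.one_le_iff_ne_zero, Finset.card_ne_zero]
    by_contra hcon
    rw [Finset.not_nonempty_iff_eq_empty] at hcon
    apply hn
    refine ⟨fun u => if u = v then a else c u, ?_⟩
    have hno : ∀ u, u ≠ v → c u ≠ a := by
      intro u hu h
      have : u ∈ S a := (hSmem a u).mpr ⟨hu, h⟩
      rw [hcon] at this
      simp at this
    intro u w huw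
    by_cases hu : u = v
    · by_cases hw : w = v
      · exact absurd huw (by rw [hu, hw]; exact G.loopless.irrefl v)
      · simp only [if_pos hu, if_neg hw]
        exact (hno w hw).symm
    · by_cases hw : w = v
      · simp only [if_neg hu, if_pos hw]
        exact hno u hu
      · simp only [if_neg hu, if_neg hw]
        exact hc u w hu hw huw
  have hSind : ∀ a, ∀ u ∈ S a, ∀ w ∈ S a, ¬ G.Adj u w := by
    intro a u hu w hw huw
    obtain ⟨h1, h2⟩ := (hSmem a u).mp hu
    obtain ⟨h3, h4⟩ := (hSmem a w).mp hw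
    exact hc u w h1 h3 huw (by rw [h2, h4])
  -- degree bounds inside a class
  have hsub : ∀ a, ∀ u ∈ S a, (S a).erase u ⊆ univ.filter (fun w => w ≠ u ∧ ¬ G.Adj u w) := by
    intro a u hu w hw
    obtain ⟨h1, h2⟩ := Finset.mem_erase.mp hw
    exact Finset.mem_filter.mpr ⟨Finset.mem_univ _, h1, hSind a u hu w h2⟩
  have hlow : ∀ a, ∀ u ∈ S a, (S a).card - 1 ≤ nd G u := by
    intro a u hu
    rw [← Finset.card_erase_of_mem hu]
    exact Finset.card_le_card (hsub a u hu)
  have heq : ∀ a, ∀ u ∈ S a, nd G u ≤ (S a).card - 1 → ∀ w, w ∉ S a → G.Adj u w := by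
    intro a u hu hle w hw
    by_contra hnadj
    have h1 : (S a).erase u = univ.filter (fun w => w ≠ u ∧ ¬ G.Adj u w) := by
      apply Finset.eq_of_subset_of_card_le (hsub a u hu)
      rw [Finset.card_erase_of_mem hu]
      exact hle
    have h2 : w ∈ univ.filter (fun w => w ≠ u ∧ ¬ G.Adj u w) := by
      refine Finset.mem_filter.mpr ⟨Finset.mem_univ _, ?_, hnadj⟩
      intro h'
      exact hw (h' ▸ hu)
    rw [← h1] at h2
    exact hw (Finset.mem_of_mem_erase h2)
  have hclass : ∀ a, 4 * ((S a).card - 1) ≤ ∑ u ∈ S a, nd G u := by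
    intro a
    have hs1 := hSne a
    by_cases hs2 : (S a).card = 1
    · rw [hs2]; simp
    · have hs3 : 2 ≤ (S a).card := by omega
      -- every vertex but at most one ...: all have excess at least one
      have hexc : ∀ u ∈ S a, (S a).card ≤ nd G u := by
        intro u hu
        by_contra hcon
        push Not at hcon
        have hle : nd G u ≤ (S a).card - 1 := by omega
        obtain ⟨x, hxS, hxu⟩ : ∃ x ∈ S a, x ≠ u := by
          have h1 : 1 < (S a).card := by omega
          exact Finset.exists_mem_ne h1 u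
        exact no_leaf G r hn hx (S a : Set (Fin n)) (fun p hp q hq => hSind a p hp q hq) x u
          hxS hxu.symm (fun w hw => heq a u hu hle w hw)
      have h1 : (S a).card * (S a).card ≤ ∑ u ∈ S a, nd G u := by
        have := Finset.card_nsmul_le_sum (S a) (nd G) (S a).card hexc
        rwa [smul_eq_mul] at this
      have h2 : 4 * ((S a).card - 1) ≤ (S a).card * (S a).card := by
        obtain ⟨t, ht⟩ : ∃ t, (S a).card = t + 2 := ⟨(S a).card - 2, by omega⟩
        rw [ht]
        have : t + 2 - 1 = t + 1 := by omega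
        rw [this]
        nlinarith
      omega
  -- the deleted vertex
  have hv2 : 2 ≤ nd G v := by
    by_contra hcon
    push Not at hcon
    have hmem : w0 ∈ univ.filter (fun w => w ≠ v ∧ ¬ G.Adj v w) :=
      Finset.mem_filter.mpr ⟨Finset.mem_univ _, hvw.symm, hna⟩
    have h1 : (univ.filter (fun w => w ≠ v ∧ ¬ G.Adj v w)).card ≤ 1 := by
      have : nd G v ≤ 1 := by omega
      exact this
    apply no_single G r hn hx v w0 hvw hna
    intro w hw hw0
    by_contra hnadj
    have h2 : w ∈ univ.filter (fun w => w ≠ v ∧ ¬ G.Adj v w) :=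
      Finset.mem_filter.mpr ⟨Finset.mem_univ _, hw, hnadj⟩
    exact hw0 (Finset.card_le_one.mp h1 w h2 w0 hmem)
  -- sum up
  have hpart : ∑ u : Fin n, nd G u = nd G v + ∑ a, ∑ u ∈ S a, nd G u := by
    rw [← Finset.add_sum_erase univ (nd G) (Finset.mem_univ v)]
    congr 1
    have h1 : ∀ a, S a = (univ.erase v).filter (fun u => c u = a) := by
      intro a; ext u
      rw [hSmem]; simp
    simp_rw [h1]
    exact (Finset.sum_fiberwise (univ.erase v) c (nd G)).symm
  have hcardpart : ∑ a, (S a).card + 1 = n := by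
    have h1 : ∀ a, S a = (univ.erase v).filter (fun u => c u = a) := by
      intro a; ext u
      rw [hSmem]; simp
    simp_rw [h1]
    have h2 := Finset.card_eq_sum_card_fiberwise (s := univ.erase v) (f := c)
      (t := (univ : Finset (Fin (r + 1)))) (fun _ _ => by simp)
    rw [← h2, Finset.card_erase_of_mem (Finset.mem_univ _), Finset.card_univ, Fintype.card_fin]
    omega
  have hsum1 : ∑ a : Fin (r + 1), 4 * ((S a).card - 1) ≤ ∑ a, ∑ u ∈ S a, nd G u :=
    Finset.sum_le_sum (fun a _ => hclass a)
  have hsum2 : ∑ a : Fin (r + 1), ((S a).card - 1) + (r + 1) = ∑ a, (S a).card := by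
    have h1 : ∀ a : Fin (r + 1), (S a).card - 1 + 1 = (S a).card := by
      intro a
      have := hSne a
      omega
    rw [← Finset.sum_congr rfl (fun a _ => h1 a), Finset.sum_add_distrib]
    simp
  rw [← Finset.mul_sum] at hsum1
  have htot : ∑ u : Fin n, nd G u + ∑ u : Fin n, G.degree u + n = n * n := by
    have h1 : ∑ u : Fin n, (nd G u + G.degree u + 1) = ∑ u : Fin n, n :=
      Finset.sum_congr rfl (fun u _ => nd_add_degree G u)
    rw [Finset.sum_add_distrib, Finset.sum_add_distrib] at h1
    simpa using h1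
  have hdeg : ∑ u : Fin n, G.degree u = 2 * G.edgeSet.ncard := by
    have h4 : G.edgeSet.ncard = G.edgeFinset.card := by
      rw [← SimpleGraph.coe_edgeFinset, Set.ncard_coe_finset]
    rw [h4]
    exact G.sum_degrees_eq_twice_card_edges
  have hnn : n * (n - 1) + n = n * n := by
    obtain ⟨t, rfl⟩ : ∃ t, n = t + 1 := ⟨n - 1, by omega⟩
    have : t + 1 - 1 = t := by omega
    rw [this]; ring
  omega

end Pool.Agent.Lib.MP_f053ce_co
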