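import Mathlib
import Pool.Agent.Lib.MP_f053ce_co.NonEdges

namespace Pool.Agent.Lib.MP_f053ce_co

open Finset

/-- the complement of a cycle of length `q` together with isolated vertices -/
def cc (n q : ℕ) : SimpleGraph (Fin n) where
  Adj u v := u ≠ v ∧ ¬ (u.val < q ∧ v.val < q ∧ (v.val = (u.val + 1) % q ∨
    u.val = (v.val + 1) % q))
  symm := ⟨by
    rintro u v ⟨h1, h2⟩
    exact ⟨h1.symm, fun h => h2 ⟨h.2.1, h.1, h.2.2.symm⟩⟩⟩
  loopless := ⟨fun u h => h.1 rfl⟩

theorem cc_adj {n q : ℕ} (u v : Fin n) : (cc n q).Adj u v ↔ u ≠ v ∧ ¬ (u.val < q ∧ v.val < q ∧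
    (v.val = (u.val + 1) % q ∨ u.val = (v.val + 1) % q)) := Iff.rfl

theorem mod_succ {q a : ℕ} (ha : a < q) :
    (a + 1) % q = if a + 1 = q then 0 else a + 1 := by
  split_ifs with h
  · rw [h, Nat.mod_self]
  · exact Nat.mod_eq_of_lt (by omega)

theorem cc_critical (p r n : ℕ) (hp : 2 ≤ p) (hn : n = r + 2 + p) (hq : 2 * p + 1 ≤ n) :
    IsCritical (r + 2) (cc n (2 * p + 1)) := by
  classical
  rw [isCritical_iff]
  constructor
  · rintro ⟨c, hc⟩
    -- weights
    set w : Fin n → ℕ := fun u => if u.val < 2 * p + 1 then 1 else 2 with hw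
    have hclass : ∀ a : Fin (r + 1), ∑ u ∈ univ.filter (fun u => c u = a), w u ≤ 2 := by
      intro a
      set S := univ.filter (fun u => c u = a) with hS
      have hSm : ∀ u, u ∈ S ↔ c u = a := by intro u; simp [hS]
      have hna : ∀ u ∈ S, ∀ v ∈ S, u ≠ v → (u.val < 2 * p + 1 ∧ v.val < 2 * p + 1 ∧
          (v.val = (u.val + 1) % (2 * p + 1) ∨ u.val = (v.val + 1) % (2 * p + 1))) := by
        intro u hu v hv huv
        by_contra hcon
        exact hc u v ((cc_adj u v).mpr ⟨huv, hcon⟩) (by rw [(hSm u).mp hu, (hSm v).mp hv])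
      by_cases hbig : ∃ u ∈ S, ¬ u.val < 2 * p + 1
      · obtain ⟨u, hu, hub⟩ := hbig
        have : S = {u} := by
          ext v
          rw [Finset.mem_singleton]
          constructor
          · intro hv
            by_contra hne
            exact hub (hna u hu v hv (fun h => hne h.symm)).1
          · rintro rfl; exact hu
        rw [this, Finset.sum_singleton]
        simp only [hw]
        split_ifs <;> omega
      · push Not at hbig
        have h1 : ∑ u ∈ S, w u = S.card := by
          rw [Finset.card_eq_sum_ones]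
          apply Finset.sum_congr rfl
          intro u hu
          simp only [hw]
          rw [if_pos (hbig u hu)]
        rw [h1]
        by_contra hcon
        push Not at hcon
        obtain ⟨x, y, z, hx, hy, hz, hxy, hxz, hyz⟩ := Finset.two_lt_card_iff.mp hcon
        obtain ⟨a1, a2, a3⟩ := hna x hx y hy hxy
        obtain ⟨_, b2, b3⟩ := hna x hx z hz hxz
        obtain ⟨_, _, c3⟩ := hna y hy z hz hyz
        have hxy' : x.val ≠ y.val := fun h => hxy (Fin.ext h)
        have hxz' : x.val ≠ z.val := fun h => hxz (Fin.ext h)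
        have hyz' : y.val ≠ z.val := fun h => hyz (Fin.ext h)
        rw [mod_succ a1, mod_succ a2] at a3
        rw [mod_succ a1, mod_succ b2] at b3
        rw [mod_succ a2, mod_succ b2] at c3
        split_ifs at a3 b3 c3 <;> omega
    have hsum : ∑ u : Fin n, w u ≤ 2 * (r + 1) := by
      rw [← Finset.sum_fiberwise univ c w]
      calc ∑ a, ∑ u ∈ univ.filter (fun u => c u = a), w u ≤ ∑ a : Fin (r + 1), 2 :=
            Finset.sum_le_sum (fun a _ => hclass a)
        _ = 2 * (r + 1) := by simp [mul_comm]
    have hw2 : ∑ u : Fin n, w u + (2 * p + 1) = 2 * n := by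
      have h1 : ∀ u : Fin n, w u + (if u.val < 2 * p + 1 then 1 else 0) = 2 := by
        intro u; simp only [hw]; split_ifs <;> rfl
      have h2 := Finset.sum_congr (rfl : (univ : Finset (Fin n)) = univ) (fun u _ => h1 u)
      rw [Finset.sum_add_distrib, Finset.sum_boole] at h2
      have h3 : (univ.filter (fun u : Fin n => u.val < 2 * p + 1)).card = 2 * p + 1 := by
        rw [Fin.card_filter_val_lt]
        omega
      rw [h3] at h2
      simp at h2
      omega
    omega
  · intro x
    by_cases hxq : x.val < 2 * p + 1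
    · -- position after x
      set pos : ℕ → ℕ := fun u => if x.val < u then u - x.val - 1 else u + 2 * p - x.val with hpos
      have hlt : ∀ u : Fin n, u ≠ x →
          (if u.val < 2 * p + 1 then pos u.val / 2 else u.val - (p + 1)) < r + 1 := by
        intro u hu
        have hu' : u.val ≠ x.val := fun h => hu (Fin.ext h)
        have := u.2
        simp only [hpos]
        split_ifs <;> omega
      refine ⟨fun u => if h : u ≠ x then
        ⟨if u.val < 2 * p + 1 then pos u.val / 2 else u.val - (p + 1), hlt u h⟩ else 0, ?_⟩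
      intro u v hu hv huv heq
      obtain ⟨hne, hnc⟩ := (cc_adj u v).mp huv
      simp only [dif_pos hu, dif_pos hv, Fin.mk.injEq] at heq
      have hu' : u.val ≠ x.val := fun h => hu (Fin.ext h)
      have hv' : v.val ≠ x.val := fun h => hv (Fin.ext h)
      have huv' : u.val ≠ v.val := fun h => hne (Fin.ext h)
      have hun := u.2
      have hvn := v.2
      by_cases h1 : u.val < 2 * p + 1
      · by_cases h2 : v.val < 2 * p + 1
        · apply hnc
          refine ⟨h1, h2, ?_⟩
          rw [mod_succ h1, mod_succ h2]
          simp only [if_pos h1, if_pos h2, hpos] at heq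
          split_ifs at heq ⊢ <;> omega
        · simp only [if_pos h1, if_neg h2, hpos] at heq
          split_ifs at heq <;> omega
      · by_cases h2 : v.val < 2 * p + 1
        · simp only [if_neg h1, if_pos h2, hpos] at heq
          split_ifs at heq <;> omega
        · simp only [if_neg h1, if_neg h2] at heq
          omega
    · have hlt : ∀ u : Fin n, u ≠ x →
          (if u.val < 2 * p + 1 then u.val / 2 else
            if u.val < x.val then u.val - p else u.val - (p + 1)) < r + 1 := by
        intro u hu
        have hu' : u.val ≠ x.val := fun h => hu (Fin.ext h)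
        have := u.2
        have := x.2
        split_ifs <;> omega
      refine ⟨fun u => if h : u ≠ x then
        ⟨if u.val < 2 * p + 1 then u.val / 2 else
            if u.val < x.val then u.val - p else u.val - (p + 1), hlt u h⟩ else 0, ?_⟩
      intro u v hu hv huv heq
      obtain ⟨hne, hnc⟩ := (cc_adj u v).mp huv
      simp only [dif_pos hu, dif_pos hv, Fin.mk.injEq] at heq
      have hu' : u.val ≠ x.val := fun h => hu (Fin.ext h)
      have hv' : v.val ≠ x.val := fun h => hv (Fin.ext h)
      have huv' : u.val ≠ v.val := fun h => hne (Fin.ext h)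
      have hun := u.2
      have hvn := v.2
      by_cases h1 : u.val < 2 * p + 1
      · by_cases h2 : v.val < 2 * p + 1
        · apply hnc
          refine ⟨h1, h2, ?_⟩
          rw [mod_succ h1, mod_succ h2]
          simp only [if_pos h1, if_pos h2] at heq
          split_ifs <;> omega
        · simp only [if_pos h1, if_neg h2] at heq
          split_ifs at heq <;> omega
      · by_cases h2 : v.val < 2 * p + 1
        · simp only [if_neg h1, if_pos h2] at heq
          split_ifs at heq <;> omega
        · simp only [if_neg h1, if_neg h2] at heq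
          split_ifs at heq <;> omega

theorem cc_edges (p n : ℕ) (hp : 2 ≤ p) (hq : 2 * p + 1 ≤ n) :
    n * (n - 1) ≤ 2 * (cc n (2 * p + 1)).edgeSet.ncard + 2 * (2 * p + 1) := by
  classical
  have hnd : ∀ u : Fin n, nd (cc n (2 * p + 1)) u ≤ if u.val < 2 * p + 1 then 2 else 0 := by
    intro u
    split_ifs with h
    · -- at most two non-neighbours
      have hs : (univ.filter (fun w => w ≠ u ∧ ¬ (cc n (2 * p + 1)).Adj u w)) ⊆
          {(⟨(u.val + 1) % (2 * p + 1), lt_of_lt_of_le (Nat.mod_lt _ (by omega)) hq⟩ : Fin n),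
            ⟨(u.val + 2 * p) % (2 * p + 1), lt_of_lt_of_le (Nat.mod_lt _ (by omega)) hq⟩} := by
        intro w hw
        obtain ⟨_, hwu, hna⟩ := Finset.mem_filter.mp hw
        rw [cc_adj] at hna
        have h2 : u.val < 2 * p + 1 ∧ w.val < 2 * p + 1 ∧ (w.val = (u.val + 1) % (2 * p + 1) ∨
            u.val = (w.val + 1) % (2 * p + 1)) := by
          by_contra hcon
          exact hna ⟨fun h => hwu h.symm, hcon⟩
        obtain ⟨h3, h4, h5⟩ := h2
        rw [Finset.mem_insert, Finset.mem_singleton]
        rcases h5 with h5 | h5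
        · left; exact Fin.ext h5
        · right
          apply Fin.ext
          show w.val = (u.val + 2 * p) % (2 * p + 1)
          rw [mod_succ h4] at h5
          split_ifs at h5 with h6
          · rw [h5, zero_add, Nat.mod_eq_of_lt (by omega)]; omega
          · rw [h5]
            have e : w.val + 1 + 2 * p = w.val + (2 * p + 1) := by ring
            rw [e, Nat.add_mod_right, Nat.mod_eq_of_lt h4]
      calc nd (cc n (2 * p + 1)) u ≤ _ := Finset.card_le_card hs
        _ ≤ 2 := Finset.card_le_two
    · have : (univ.filter (fun w => w ≠ u ∧ ¬ (cc n (2 * p + 1)).Adj u w)) = ∅ := by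
        rw [Finset.filter_eq_empty_iff]
        intro w _ hw
        apply hw.2
        rw [cc_adj]
        exact ⟨fun h => hw.1 h.symm, fun hcon => h hcon.1⟩
      rw [nd, this]; simp
  have hsum : ∑ u : Fin n, nd (cc n (2 * p + 1)) u ≤ 2 * (2 * p + 1) := by
    calc _ ≤ ∑ u : Fin n, (if u.val < 2 * p + 1 then 2 else 0) :=
          Finset.sum_le_sum (fun u _ => hnd u)
      _ = 2 * (2 * p + 1) := by
        rw [← Finset.sum_filter, Finset.sum_const, Fin.card_filter_val_lt, smul_eq_mul]
        rw [min_eq_right (by omega)]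
        ring
  have htot : ∑ u : Fin n, nd (cc n (2 * p + 1)) u + ∑ u : Fin n, (cc n (2 * p + 1)).degree u + n
      = n * n := by
    have h1 : ∑ u : Fin n, (nd (cc n (2 * p + 1)) u + (cc n (2 * p + 1)).degree u + 1)
        = ∑ u : Fin n, n := Finset.sum_congr rfl (fun u _ => nd_add_degree _ u)
    rw [Finset.sum_add_distrib, Finset.sum_add_distrib] at h1
    simpa using h1
  have hdeg : ∑ u : Fin n, (cc n (2 * p + 1)).degree u = 2 * (cc n (2 * p + 1)).edgeSet.ncard := by
    have h4 : (cc n (2 * p + 1)).edgeSet.ncard = (cc n (2 * p + 1)).edgeFinset.card := by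
      rw [← SimpleGraph.coe_edgeFinset, Set.ncard_coe_finset]
    rw [h4]
    exact (cc n (2 * p + 1)).sum_degrees_eq_twice_card_edges
  have hnn : n * (n - 1) + n = n * n := by
    obtain ⟨t, rfl⟩ : ∃ t, n = t + 1 := ⟨n - 1, by omega⟩
    have : t + 1 - 1 = t := by omega
    rw [this]; ring
  omega

end Pool.Agent.Lib.MP_f053ce_co
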