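import Mathlib
import Pool.Agent.Lib.MP_f053ce_co.Upper
import Pool.Agent.Lib.MP_f053ce_co.Bridge

namespace Pool.Agent.Lib.MP_f053ce_co

open Finset

theorem universal (s n : ℕ) (G : SimpleGraph (Fin n)) (hG : IsCritical (s + 3) G) :
    2 * (s + 1) * G.edgeSet.ncard ≤ n * (s * n + 2) := by
  classical
  obtain ⟨hn, hx⟩ := (isCritical_iff G (s + 1)).mp hG
  have h1 := turan_aux G s univ ((s : ℝ) * n + 2) 0 le_rfl
    (by rw [Fintype.card_fin, Finset.card_univ, Fintype.card_fin]; push_cast; nlinarith)
    (by
      intro K _ hK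
      have h2 := clique_deg_real G (s + 1) hn hx (s + 1) (by omega) K hK
      rw [Fintype.card_fin] at h2
      push_cast at h2
      linarith)
  rw [Finset.card_univ, Fintype.card_fin] at h1
  have h2 : ∑ v : Fin n, (G.degree v : ℝ) = 2 * (G.edgeSet.ncard : ℝ) := by
    have h3 := G.sum_degrees_eq_twice_card_edges
    have h4 : G.edgeSet.ncard = G.edgeFinset.card := by
      rw [← SimpleGraph.coe_edgeFinset, Set.ncard_coe_finset]
    rw [h4]
    exact_mod_cast h3
  rw [h2] at h1
  have h3 : 2 * (G.edgeSet.ncard : ℝ) ≤ (n : ℝ) * (s * n + 2) / ((s : ℝ) + 1) := by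
    push_cast at h1
    linarith
  rw [le_div_iff₀ (by positivity)] at h3
  have h4 : ((2 * (s + 1) * G.edgeSet.ncard : ℕ) : ℝ) ≤ ((n * (s * n + 2) : ℕ) : ℝ) := by
    push_cast
    linarith
  exact_mod_cast h4

/-- the complete graph is critical -/
theorem complete_critical (r : ℕ) : IsCritical (r + 2) (⊤ : SimpleGraph (Fin (r + 2))) := by
  rw [isCritical_iff]
  constructor
  · rintro ⟨c, hc⟩
    have hinj : Function.Injective c := by
      intro a b hab
      by_contra hne
      exact hc a b (by simpa using hne) hab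
    have := Fintype.card_le_of_injective c hinj
    simp at this
  · intro x
    have h1 : Fintype.card {y : Fin (r + 2) // y ≠ x} = r + 1 := by
      rw [Fintype.card_subtype_compl]; simp
    let e := Fintype.equivFinOfCardEq h1
    refine ⟨fun v => if h : v ≠ x then e ⟨v, h⟩ else 0, ?_⟩
    intro u v hu hv huv h
    simp only [dif_pos hu, dif_pos hv] at h
    have h2 := e.injective h
    have h3 : u = v := congrArg Subtype.val h2
    exact (G_ne huv) h3
where
  G_ne {n : ℕ} {u v : Fin n} (h : (⊤ : SimpleGraph (Fin n)).Adj u v) : u ≠ v := by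
    simpa using h

end Pool.Agent.Lib.MP_f053ce_co
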